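import Pool.Agent.H24FG.Fam

/-!
# The system of the tensors which give algebraic classes
-/

open CategoryTheory AlgebraicGeometry

set_option autoImplicit false
set_option linter.unusedSectionVars false

universe u v w

namespace Pool.Agent.H24FG

open Pool.Agent.H24FD hiding bf bf_add_left bf_add_right
open Pool.Agent.H914 Pool.Agent.H914.VarClass Pool.Agent.H914.VarClass.Obj
  Pool.Agent.H914.WeilCohomology Pool.Agent.H281R3.HT Pool.Agent.W552

variable {k : Type u} [Field k] {𝒱 : VarClass k} {ops : CycleOps 𝒱}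
  {W : WeilCohomology.{u, v} ops} {Λ : Type}

namespace Fam

variable (M : Fam W Λ) [DecidableEq Λ]

/-- The coefficients multiplied with a function of the blocks. -/
noncomputable def wm {α : Type} (w : (α → Λ × Bool) → ℚ) (x : (α → M.I) → W.K) :
    (α → M.I) → W.K :=
  fun r => (w (fun a => M.bk (r a)) : W.K) * x r

/-- The class with the given coefficients in the given slots. -/
noncomputable def cl {α : Type} [Fintype α] [DecidableEq α] [Fintype Λ] {Y : 𝒱.Obj}
    (s : α → M.Slot Y) (L : List α) (x : (α → M.I) → W.K) : W.H Y :=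
  cle (fun a => M.ev (s a)) L x

variable {M} {α β : Type} [Fintype α] [DecidableEq α] [Fintype β] [DecidableEq β]

omit [DecidableEq Λ] [Fintype α] [DecidableEq α] in
lemma wm_wm (w w' : (α → Λ × Bool) → ℚ) (x : (α → M.I) → W.K) :
    M.wm w (M.wm w' x) = M.wm (fun q => w q * w' q) x := by
  funext r
  simp only [wm, Rat.cast_mul, mul_assoc]

omit [DecidableEq Λ] [Fintype α] [DecidableEq α] in
lemma wm_add (w : (α → Λ × Bool) → ℚ) (x y : (α → M.I) → W.K) :
    M.wm w (x + y) = M.wm w x + M.wm w y := by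
  funext r
  simp only [wm, Pi.add_apply, mul_add]

omit [DecidableEq Λ] [Fintype α] [DecidableEq α] in
lemma wm_smul (w : (α → Λ × Bool) → ℚ) (q : ℚ) (x : (α → M.I) → W.K) :
    M.wm w (q • x) = (q : W.K) • M.wm w x := by
  funext r
  simp only [wm, Pi.smul_apply, smul_eq_mul, Rat.smul_def]
  ring

omit [DecidableEq Λ] [Fintype α] [DecidableEq α] in
lemma wm_one (x : (α → M.I) → W.K) : M.wm (fun _ => 1) x = x := by
  funext r
  simp [wm]

omit [DecidableEq Λ] [Fintype α] [DecidableEq α] in
lemma wm_zero (w : (α → Λ × Bool) → ℚ) : M.wm w (0 : (α → M.I) → W.K) = 0 := by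
  funext r
  simp [wm]

variable [Fintype Λ]

variable (M) in
/-- The dependence on the order of the slots. -/
lemma cl_perm {L L' : List α} (hL : L.Nodup) (hL' : L'.Nodup) (ha : ∀ a, a ∈ L)
    (ha' : ∀ a, a ∈ L') : ∃ w : (α → Λ × Bool) → ℚ, (∀ q, w q * w q = 1) ∧
      ∀ (Y : 𝒱.Obj) (s : α → M.Slot Y) (x : (α → M.I) → W.K),
        M.cl s L x = M.cl s L' (M.wm w x) := by
  have hp : L.Perm L' := (List.perm_ext_iff_of_nodup hL hL').2 fun a => by simp [ha, ha']
  obtain ⟨w, hw, hw'⟩ := H24FD.exists_perm.{v, v} (K := W.K) (ι := M.I) hp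
  refine ⟨fun q => w (fun a => (q a).2), fun q => hw _, fun Y s x => ?_⟩
  unfold cl cle
  apply Finset.sum_congr rfl
  intro r _
  rw [hw' M.od _ (M.sc s) r, smul_smul, wm, mul_comm]
  rfl

lemma cl_add {Y : 𝒱.Obj} (s : α → M.Slot Y) (L : List α) (x y : (α → M.I) → W.K) :
    M.cl s L (x + y) = M.cl s L x + M.cl s L y := cle_add _ _ _ _

lemma cl_smul {Y : 𝒱.Obj} (s : α → M.Slot Y) (L : List α) (c : W.K) (x : (α → M.I) → W.K) :
    M.cl s L (c • x) = c • M.cl s L x := cle_smul _ _ _ _

lemma cl_zero {Y : 𝒱.Obj} (s : α → M.Slot Y) (L : List α) :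
    M.cl s L (0 : (α → M.I) → W.K) = 0 := cle_zero _ _

lemma map_cl {Y Z : 𝒱.Obj} (g : Z ⟶ Y) (s : α → M.Slot Y) (L : List α)
    (x : (α → M.I) → W.K) : W.map g (M.cl s L x) = M.cl (fun a => M.pl g (s a)) L x := by
  unfold cl
  rw [map_cle]
  congr 1
  funext a i
  exact (M.ev_pl g (s a) i).symm

variable (M) in
/-- The tensors which give algebraic classes. -/
def AlgS (α : Type) [Fintype α] [DecidableEq α] : Submodule ℚ ((α → M.I) → W.K) where
  carrier := {x | ∀ (w : (α → Λ × Bool) → ℚ) (Y : 𝒱.Obj) (s : α → M.Slot Y) (L : List α),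
    L.Nodup → (∀ a, a ∈ L) → AS W Y (M.cl s L (M.wm w x))}
  add_mem' := by
    intro x y hx hy w Y s L h1 h2
    rw [wm_add, cl_add]
    exact (hx w Y s L h1 h2).add (hy w Y s L h1 h2)
  zero_mem' := by
    intro w Y s L h1 h2
    rw [wm_zero, cl_zero]
    exact AS.zero
  smul_mem' := by
    intro q x hx w Y s L h1 h2
    rw [wm_smul, cl_smul]
    exact (hx w Y s L h1 h2).smul q

lemma mem_AlgS {x : (α → M.I) → W.K} : x ∈ M.AlgS α ↔
    ∀ (w : (α → Λ × Bool) → ℚ) (Y : 𝒱.Obj) (s : α → M.Slot Y) (L : List α),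
      L.Nodup → (∀ a, a ∈ L) → AS W Y (M.cl s L (M.wm w x)) := Iff.rfl

lemma mem_AlgS_of {x : (α → M.I) → W.K} (L₀ : List α) (hL : L₀.Nodup) (ha : ∀ a, a ∈ L₀)
    (h : ∀ (w : (α → Λ × Bool) → ℚ) (Y : 𝒱.Obj) (s : α → M.Slot Y),
      AS W Y (M.cl s L₀ (M.wm w x))) : x ∈ M.AlgS α := by
  intro w Y s L h1 h2
  obtain ⟨w', _, hw'⟩ := M.cl_perm h1 hL h2 ha
  rw [hw', wm_wm]
  exact h _ Y s

lemma AlgS.one : (fun _ => 1) ∈ M.AlgS Empty := by
  refine mem_AlgS_of [] List.nodup_nil (fun a => a.elim) fun w Y s => ?_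
  unfold cl cle
  rw [Fintype.sum_unique, mono_nil]
  have h1 : M.wm w (fun _ => 1) default = ((w (fun a => M.bk ((default : Empty → M.I) a)) : ℚ) :
      W.K) := by
    simp [wm]
  rw [h1]
  exact AS.one.smul _

lemma AlgS.re (e : α ≃ β) {x : (α → M.I) → W.K} (hx : x ∈ M.AlgS α) :
    H24FD.re e x ∈ M.AlgS β := by
  intro w Y s L h1 h2
  have e1 : L = (L.map e.symm).map e := by simp [List.map_map]
  have e2 : M.wm w (H24FD.re e x) = H24FD.re e (M.wm (fun q => w (fun b => q (e.symm b))) x) := by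
    funext r
    simp [wm, H24FD.re]
  rw [e1, e2]
  unfold cl
  rw [cle_re]
  exact hx _ Y (fun a => s (e a)) (L.map e.symm) (h1.map e.symm.injective)
    (fun a => List.mem_map.2 ⟨e a, h2 _, by simp⟩)

/-- The function which is one at `q` and zero elsewhere. -/
def dl {T : Type} [DecidableEq T] (q : T) : T → ℚ := fun q' => if q' = q then 1 else 0

lemma AlgS.ten {x : (α → M.I) → W.K} {y : (β → M.I) → W.K} (hx : x ∈ M.AlgS α)
    (hy : y ∈ M.AlgS β) : H24FD.ten x y ∈ M.AlgS (α ⊕ β) := by
  classical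
  set L₁ : List α := Finset.univ.toList with hL₁
  set L₂ : List β := Finset.univ.toList with hL₂
  have h1 : L₁.Nodup := Finset.nodup_toList _
  have h2 : L₂.Nodup := Finset.nodup_toList _
  have h1' : ∀ a, a ∈ L₁ := fun a => Finset.mem_toList.2 (Finset.mem_univ a)
  have h2' : ∀ a, a ∈ L₂ := fun a => Finset.mem_toList.2 (Finset.mem_univ a)
  refine mem_AlgS_of (L₁.map Sum.inl ++ L₂.map Sum.inr) ?_ ?_ fun w Y s => ?_
  · rw [List.nodup_append]
    refine ⟨h1.map Sum.inl_injective, h2.map Sum.inr_injective, ?_⟩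
    intro c hc d hd hcd
    obtain ⟨a, _, rfl⟩ := List.mem_map.1 hc
    obtain ⟨b, _, rfl⟩ := List.mem_map.1 hd
    exact Sum.inl_ne_inr hcd
  · rintro (a | b)
    · exact List.mem_append_left _ (List.mem_map_of_mem (h1' a))
    · exact List.mem_append_right _ (List.mem_map_of_mem (h2' b))
  · have e1 : M.wm w (H24FD.ten x y) = ∑ q : (α ⊕ β → Λ × Bool), (w q : W.K) •
        H24FD.ten (M.wm (dl (fun a => q (Sum.inl a))) x)
          (M.wm (dl (fun b => q (Sum.inr b))) y) := by
      funext r
      rw [Finset.sum_apply, Finset.sum_eq_single (fun c => M.bk (r c))]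
      · simp [wm, H24FD.ten, dl]
      · intro q _ hq
        rw [Pi.smul_apply]
        by_cases h3 : (fun a => M.bk (r (Sum.inl a))) = fun a => q (Sum.inl a)
        · have h4 : (fun b => M.bk (r (Sum.inr b))) ≠ fun b => q (Sum.inr b) := by
            intro h4
            apply hq
            funext c
            rcases c with a | b
            · exact (congrFun h3 a).symm
            · exact (congrFun h4 b).symm
          simp [wm, H24FD.ten, dl, h4]
        · simp [wm, H24FD.ten, dl, h3]
      · intro h0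
        exact absurd (Finset.mem_univ _) h0
    rw [e1]
    unfold cl
    rw [cle_sum]
    refine AS.ratSub.sum _ fun q _ => ?_
    rw [cle_smul, cle_ten]
    exact ((hx _ Y (fun a => s (Sum.inl a)) L₁ h1 h1').mul
      (hy _ Y (fun b => s (Sum.inr b)) L₂ h2 h2')).smul _

variable (M) in
/-- The two slots in the product with the square of a member. -/
noncomputable def sl2 (a : Λ) (Y : 𝒱.Obj) (s : β → M.Slot Y) :
    Bool ⊕ β → M.Slot (((M.P a).X.prod (M.P a).X).prod Y) :=
  Sum.elim (fun b => if b then ⟨a, fst _ _ ≫ snd _ _⟩ else ⟨a, fst _ _ ≫ fst _ _⟩)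
    (fun b => M.pl (snd _ _) (s b))

lemma mono_sl2 (a : Λ) (Y : 𝒱.Obj) (s : β → M.Slot Y) (L : List β) (i j : M.I)
    (r : β → M.I) : mono (fun c => M.ev (M.sl2 a Y s c))
      (Sum.inl false :: Sum.inl true :: L.map Sum.inr) (cons2 i j r) =
      W.map (fst _ _) (W.map (fst _ _) (M.eat a i) * W.map (snd _ _) (M.eat a j)) *
        W.map (snd _ _) (mono (fun b => M.ev (s b)) L r) := by
  rw [mono_cons, mono_cons, mono_map, map_mul (W.map (fst _ Y)), mul_assoc, ← W.map_comp,
    ← W.map_comp, map_mono]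
  congr 2
  unfold mono
  congr 1
  apply List.map_congr_left
  intro b _
  exact M.ev_pl _ _ _

lemma AlgS.ctr {x : (Bool ⊕ β → M.I) → W.K} (hx : x ∈ M.AlgS (Bool ⊕ β)) :
    ctrG M.gd x ∈ M.AlgS β := by
  classical
  set L : List β := Finset.univ.toList with hL
  have h1 : L.Nodup := Finset.nodup_toList _
  have h1' : ∀ a, a ∈ L := fun a => Finset.mem_toList.2 (Finset.mem_univ a)
  refine mem_AlgS_of L h1 h1' fun w Y s => ?_
  set w' : (Bool ⊕ β → Λ × Bool) → ℚ := fun q => w (fun b => q (Sum.inr b)) with hw'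
  set L' : List (Bool ⊕ β) := Sum.inl false :: Sum.inl true :: L.map Sum.inr with hL'
  have h2 : L'.Nodup := by
    rw [hL', List.nodup_cons, List.nodup_cons]
    refine ⟨?_, ?_, h1.map Sum.inr_injective⟩ <;> simp
  have h2' : ∀ a, a ∈ L' := by
    rintro ((_ | _) | b)
    · simp [hL']
    · simp [hL']
    · simp [hL', h1' b]
  have key : M.cl s L (M.wm w (ctrG M.gd x)) = ∑ a, W.push (snd _ Y)
      (W.map (fst _ Y) (M.kap a) * M.cl (M.sl2 a Y s) L' (M.wm w' x)) := by
    have e1 : ∀ a, W.push (snd _ Y) (W.map (fst _ Y) (M.kap a) *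
        M.cl (M.sl2 a Y s) L' (M.wm w' x)) = ∑ r : β → M.I, ∑ i, ∑ j,
          (M.wm w' x (cons2 i j r) * bf W (M.P a).X (M.P a).D (M.f a) (M.eat a i)
            (M.eat a j)) • mono (fun b => M.ev (s b)) L r := by
      intro a
      unfold cl cle
      rw [sumM_sum, sum_bool, Finset.mul_sum, map_sum]
      simp only [Finset.mul_sum, map_sum]
      have e2 : ∀ (i j : M.I) (r : β → M.I), W.push (snd _ Y) (W.map (fst _ Y) (M.kap a) *
          M.wm w' x (Sum.elim (two i j) r) • mono (fun c => M.ev (M.sl2 a Y s c)) L'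
            (Sum.elim (two i j) r)) = (M.wm w' x (cons2 i j r) *
          bf W (M.P a).X (M.P a).D (M.f a) (M.eat a i) (M.eat a j)) •
            mono (fun b => M.ev (s b)) L r := by
        intro i j r
        rw [mul_smul_comm, map_smul]
        have e3 : mono (fun c => M.ev (M.sl2 a Y s c)) L' (Sum.elim (two i j) r) = _ :=
          mono_sl2 (M := M) a Y s L i j r
        rw [e3, ← mul_assoc, ← map_mul, W.push_snd, M.tkap, smul_smul]
        rfl
      simp only [e2]
      rw [Finset.sum_congr rfl (fun i _ => Finset.sum_comm), Finset.sum_comm]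
    simp only [e1]
    unfold cl cle
    rw [Finset.sum_comm]
    apply Finset.sum_congr rfl
    intro r _
    rw [Finset.sum_comm]
    have e4 : M.wm w (ctrG M.gd x) r = ∑ i, ∑ j, M.gd.g i j * M.wm w' x (cons2 i j r) := by
      unfold wm ctrG
      rw [Finset.mul_sum]
      apply Finset.sum_congr rfl
      intro i _
      rw [Finset.mul_sum]
      apply Finset.sum_congr rfl
      intro j _
      rw [mul_left_comm]
      rfl
    rw [e4, Finset.sum_smul]
    apply Finset.sum_congr rfl
    intro i _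
    rw [Finset.sum_smul, Finset.sum_comm]
    apply Finset.sum_congr rfl
    intro j _
    rw [M.g_apply, mul_comm, Finset.mul_sum, Finset.sum_smul]
  rw [key]
  refine AS.ratSub.sum _ fun a _ => ?_
  exact ((M.hkap a).map _ |>.mul (hx w' _ _ L' h2 h2')).push _

lemma AlgS.cp (q₀ : Λ × Bool) : cpG M.gd q₀ ∈ M.AlgS Bool := by
  obtain ⟨a, o⟩ := q₀
  refine mem_AlgS_of [false, true] (by simp) (fun b => by cases b <;> simp) fun w Y s => ?_
  have e1 : M.cl s [false, true] (M.wm w (cpG M.gd (a, o))) = (w (fun _ => (a, o)) : W.K) •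
      ∑ i, ∑ j, (if M.bk i = (a, o) then M.cc i j else 0) •
        (M.ev (s false) i * M.ev (s true) j) := by
    unfold cl cle
    rw [sum_bool, Finset.smul_sum]
    apply Finset.sum_congr rfl
    intro i _
    rw [Finset.smul_sum]
    apply Finset.sum_congr rfl
    intro j _
    rw [smul_smul, mono_cons, mono_cons, mono_nil, mul_one]
    congr 1
    change (w (fun b => M.bk (two i j b)) : W.K) * (if M.bk i = (a, o) then M.cc i j else 0) = _
    by_cases h1 : M.bk i = (a, o)
    · rw [if_pos h1]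
      by_cases h2 : M.cc i j = 0
      · rw [h2, mul_zero, mul_zero]
      · have h3 := M.cc_bk h2
        congr 3
        funext b
        cases b
        · exact h1
        · exact h3.symm.trans h1
    · rw [if_neg h1, mul_zero, mul_zero]
  rw [e1]
  apply AS.smul
  obtain ⟨a1, u⟩ : Σ a, (Y ⟶ (M.P a).X) := s false
  obtain ⟨a2, v⟩ : Σ a, (Y ⟶ (M.P a).X) := s true
  by_cases h1 : a1 = a
  · by_cases h2 : a2 = a
    · subst h1
      subst h2
      have e2 : ∑ i, ∑ j, (if M.bk i = (a2, o) then M.cc i j else 0) •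
          (M.ev (⟨a2, u⟩ : M.Slot Y) i * M.ev (⟨a2, v⟩ : M.Slot Y) j) =
          W.map (Obj.lift u v) (∑ p, ∑ q, (if decide (Odd (M.dg a2 p)) = o then M.c a2 p q else 0) •
            (W.map (fst _ _) (M.e a2 p) * W.map (snd _ _) (M.e a2 q))) := by
        rw [map_sum, M.sum_col a2]
        · apply Finset.sum_congr rfl
          intro p _
          rw [map_sum, M.sum_col a2]
          · apply Finset.sum_congr rfl
            intro q _
            rw [map_smul, map_mul, ← W.map_comp, ← W.map_comp, lift_fst, lift_snd, cc_self]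
            change _ • (W.map u (M.eat a2 ⟨a2, p⟩) * W.map v (M.eat a2 ⟨a2, q⟩)) = _
            rw [eat_self, eat_self]
            congr 1
            by_cases h3 : decide (Odd (M.dg a2 p)) = o
            · rw [if_pos h3, if_pos]
              rw [← h3]
              rfl
            · rw [if_neg h3, if_neg]
              intro h4
              exact h3 (congrArg Prod.snd h4)
          · intro j hj
            rw [M.ev_ne (s := (⟨a2, v⟩ : M.Slot Y)) hj, mul_zero, smul_zero]
        · intro i hi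
          apply Finset.sum_eq_zero
          intro j _
          rw [M.ev_ne (s := (⟨a2, u⟩ : M.Slot Y)) hi, zero_mul, smul_zero]
      rw [e2]
      exact (M.alg a2 o).map _
    · rw [Finset.sum_eq_zero]
      · exact AS.zero
      · intro i _
        apply Finset.sum_eq_zero
        intro j _
        by_cases h3 : M.bk i = (a, o)
        · by_cases h4 : M.cc i j = 0
          · rw [h4]; simp
          · have h5 : j.1 = a := congrArg Prod.fst ((M.cc_bk h4).symm.trans h3)
            rw [M.ev_ne (s := (⟨a2, v⟩ : M.Slot Y)) (i := j) (fun h6 => h2 (h6.symm.trans h5)),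
              mul_zero, smul_zero]
        · rw [if_neg h3, zero_smul]
  · rw [Finset.sum_eq_zero]
    · exact AS.zero
    · intro i _
      apply Finset.sum_eq_zero
      intro j _
      by_cases h3 : M.bk i = (a, o)
      · have h5 : i.1 = a := congrArg Prod.fst h3
        rw [M.ev_ne (s := (⟨a1, u⟩ : M.Slot Y)) (i := i) (fun h6 => h1 (h6.symm.trans h5)),
          zero_mul, smul_zero]
      · rw [if_neg h3, zero_smul]

variable (M) in
lemma isSysG_AlgS : IsSysG M.gd (fun α _ _ => M.AlgS α) where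
  one := AlgS.one
  re e _ hx := AlgS.re e hx
  ten hx hy := AlgS.ten hx hy
  ctr hx := AlgS.ctr hx
  cp q := AlgS.cp q

end Fam

end Pool.Agent.H24FG
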