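import Pool.Agent.W552.Defs

/-!
# Classes generated by the algebraic classes on small products
-/

open CategoryTheory AlgebraicGeometry

universe u v w

namespace Pool.Agent.H24FG

open Pool.Agent.H914 Pool.Agent.H914.VarClass Pool.Agent.H914.VarClass.Obj
  Pool.Agent.H914.WeilCohomology Pool.Agent.H281R3.HT Pool.Agent.W552

variable {k : Type u} [Field k] {𝒱 : VarClass k} {ops : CycleOps 𝒱}

/-- The standard conjecture of Hodge type, semidefinite form: for `2 j ≤ n = dim X` and every cycle
`z` of codimension `j` whose class is primitive, the intersection number `z · z · D ^ (n - 2 j)` is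
zero or has the sign `(-1) ^ j`. -/
def HodgeSemi (W : WeilCohomology.{u, v} ops) (X : 𝒱.Obj) (D : X.Cycles) : Prop :=
  ∀ j, 2 * j ≤ X.dim → ∀ z, X.IsCyc j z → W.cl X (divPow ops D (X.dim - 2 * j + 1) z) = 0 →
    0 ≤ (-1 : ℚ) ^ j * X.V.degCycle (ops.mul z (divPow ops D (X.dim - 2 * j) z))

/-- The standard conjecture of Hodge type modulo numerical equivalence for the cycles on `X` whose
class has the property `G`: for `2 j ≤ n = dim X` and every cycle `z` of codimension `j` whose class
has the property `G` and is primitive, the intersection number `z · z · D ^ (n - 2 j)` is zero or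
has the sign `(-1) ^ j`; and if it is zero, then `z · w = 0` for all cycles `w` of codimension
`n - j` whose class has the property `G`. -/
def HodgeNumOn (W : WeilCohomology.{u, v} ops) (X : 𝒱.Obj) (D : X.Cycles)
    (G : W.H X → Prop) : Prop :=
  ∀ j, 2 * j ≤ X.dim → ∀ z, X.IsCyc j z → G (W.cl X z) →
    W.cl X (divPow ops D (X.dim - 2 * j + 1) z) = 0 →
    0 ≤ (-1 : ℚ) ^ j * X.V.degCycle (ops.mul z (divPow ops D (X.dim - 2 * j) z)) ∧
    (X.V.degCycle (ops.mul z (divPow ops D (X.dim - 2 * j) z)) = 0 →
      ∀ w, X.IsCyc (X.dim - j) w → G (W.cl X w) → X.V.degCycle (ops.mul z w) = 0)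

/-- The morphism to the product `P 0 × (P 1 × (⋯ × P n))` given by morphisms to the factors. -/
noncomputable def tup (ops : CycleOps 𝒱) : (n : ℕ) → (P : Fin (n + 1) → Polarized 𝒱) →
    {Y : 𝒱.Obj} → (∀ j, Y ⟶ (P j).X) → (Y ⟶ (nest ops n P).X)
  | 0, _, _, g => g 0
  | n + 1, P, _, g => Obj.lift (g 0) (tup ops n (fun i => P i.succ) (fun i => g i.succ))

/-- The morphism between products of members of the family `P` which is given by a map `f` of the
indices: `(x_0, …, x_m) ↦ (x_{f 0}, …, x_{f n})`. -/
noncomputable def cmap (ops : CycleOps 𝒱) {Λ : Type} (P : Λ → Polarized 𝒱) {n m : ℕ}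
    (c : Fin (m + 1) → Λ) (f : Fin (n + 1) → Fin (m + 1)) :
    (nest ops m (fun i => P (c i))).X ⟶ (nest ops n (fun i => P (c (f i)))).X :=
  tup ops n (fun i => P (c (f i))) (fun i => prj ops m (fun i => P (c i)) (f i))

/-- The classes, on the products `P (c 0) × (P (c 1) × (⋯ × P (c n)))` of members of the family `P`
(with any number of factors and any repetitions), which are generated by the algebraic classes on
the products of at most `N` members: the smallest family of classes which contains the algebraic
classes on the products of at most `N` members and is closed under rational linear combinations,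
products, pull-backs along the morphisms `(x_0, …, x_m) ↦ (x_{f 0}, …, x_{f n})` for all maps `f`
of the indices (projections, permutations of the factors, diagonals) and push-forwards along the
projections which forget the first factor. -/
inductive Gen (W : WeilCohomology.{u, v} ops) {Λ : Type} (P : Λ → Polarized 𝒱) (N : ℕ) :
    (n : ℕ) → (c : Fin (n + 1) → Λ) → W.H (nest ops n (fun i => P (c i))).X → Prop
  | alg {n : ℕ} {c : Fin (n + 1) → Λ} {j : ℕ} {z} : n < N →
      z ∈ algClasses W (nest ops n (fun i => P (c i))).X j → Gen W P N n c z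
  | add {n : ℕ} {c : Fin (n + 1) → Λ} {z w} : Gen W P N n c z → Gen W P N n c w →
      Gen W P N n c (z + w)
  | smul {n : ℕ} {c : Fin (n + 1) → Λ} (q : ℚ) {z} : Gen W P N n c z →
      Gen W P N n c ((q : W.K) • z)
  | mul {n : ℕ} {c : Fin (n + 1) → Λ} {z w} : Gen W P N n c z → Gen W P N n c w →
      Gen W P N n c (z * w)
  | pull {n m : ℕ} {c : Fin (m + 1) → Λ} (f : Fin (n + 1) → Fin (m + 1)) {z} :
      Gen W P N n (fun i => c (f i)) z → Gen W P N m c (W.map (cmap ops P c f) z)
  | push {n : ℕ} {c : Fin (n + 2) → Λ} {z} : Gen W P N (n + 1) c z →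
      Gen W P N n (fun i => c i.succ)
        (W.push (snd (P (c 0)).X (nest ops n (fun i => P (c i.succ))).X) z)

end Pool.Agent.H24FG
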