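import Pool.Agent.H24FG.Main

/-!
# The radical of the form on the generated classes
-/

open CategoryTheory AlgebraicGeometry

set_option autoImplicit false
set_option linter.unusedSectionVars false

universe u v w

namespace Pool.Agent.H24FG

open Pool.Agent.H24FD hiding bf bf_add_left bf_add_right
open Pool.Agent.H914 Pool.Agent.H914.VarClass Pool.Agent.H914.VarClass.Obj
  Pool.Agent.H914.WeilCohomology Pool.Agent.H281R3.HT Pool.Agent.W552

variable {k : Type u} [Field k] {𝒱 : VarClass k} {ops : CycleOps 𝒱}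
  {W : WeilCohomology.{u, v} ops} {Λ : Type}

namespace Fam

variable {M : Fam W Λ} [DecidableEq Λ]

/-- The signs in the trace of a product. -/
def trs : (n : ℕ) → (Fin (n + 1) → Bool) → (Fin (n + 1) → Bool) → ℚ
  | 0, _, _ => 1
  | n + 1, o, o' => (if o' 0 then ∏ j : Fin (n + 1), (if o j.succ then -1 else 1) else 1) *
      trs n (fun j => o j.succ) (fun j => o' j.succ)

lemma sgn_pow {m : ℕ} (r : Fin m → M.I) : (-1 : W.K) ^ (∑ j, M.dg (r j).1 (r j).2) =
    ∏ j, (if M.od (r j) then -1 else 1) := by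
  rw [← Finset.prod_pow_eq_pow_sum]
  apply Finset.prod_congr rfl
  intro j _
  unfold od
  by_cases h : Odd (M.dg (r j).1 (r j).2)
  · rw [h.neg_one_pow]; simp [h]
  · rw [(Nat.not_odd_iff_even.1 h).neg_one_pow]; simp [h]

/-- The trace of a product of two products of basis vectors. -/
lemma tr_pmn : ∀ (n : ℕ) (c : Fin (n + 1) → Λ) (r r' : Fin (n + 1) → M.I),
    W.tr _ (M.pmn n c r * M.pmn n c r') =
      (trs n (fun j => M.od (r j)) (fun j => M.od (r' j)) : W.K) *
        ∏ j, W.tr _ (M.eat (c j) (r j) * M.eat (c j) (r' j))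
  | 0, c, r, r' => by
    rw [pmn_zero, pmn_zero, Fin.prod_univ_succ, Fin.prod_univ_zero, mul_one, trs, Rat.cast_one,
      one_mul]
    rfl
  | n + 1, c, r, r' => by
    have h1 := tr_pmn n (fun i => c i.succ) (fun i => r i.succ) (fun i => r' i.succ)
    set Y := (M.nst n (fun i => c i.succ)).X with hY
    have h2 : ∀ (a a' : W.H (M.P (c 0)).X) (b b' : W.H Y) {i j : ℕ}, b ∈ W.gr Y i →
        a' ∈ W.gr _ j → W.tr ((M.P (c 0)).X.prod Y)
          (W.map (fst (M.P (c 0)).X Y) a * W.map (snd (M.P (c 0)).X Y) b *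
            (W.map (fst (M.P (c 0)).X Y) a' * W.map (snd (M.P (c 0)).X Y) b')) =
          (-1 : W.K) ^ (i * j) * (W.tr _ (a * a') * W.tr _ (b * b')) := by
      intro a a' b b' i j hb ha
      rw [mul_assoc, ← mul_assoc (W.map (snd (M.P (c 0)).X Y) b),
        W.comm (W.map_mem (snd (M.P (c 0)).X Y) hb) (W.map_mem (fst (M.P (c 0)).X Y) ha),
        smul_mul_assoc, mul_smul_comm, mul_assoc, ← mul_assoc, ← map_mul, ← map_mul, map_smul,
        W.tr_prod, smul_eq_mul]
    have h3 := h2 (M.eat (c 0) (r 0)) (M.eat (c 0) (r' 0)) _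
      (M.pmn n (fun i => c i.succ) (fun i => r' i.succ))
      (pmn_mem n (fun i => c i.succ) (fun i => r i.succ)) (M.eat_mem (c 0) (r' 0))
    have h4 : W.tr _ (M.pmn (n + 1) c r * M.pmn (n + 1) c r') = W.tr ((M.P (c 0)).X.prod Y)
        (W.map (fst (M.P (c 0)).X Y) (M.eat (c 0) (r 0)) * W.map (snd (M.P (c 0)).X Y)
          (M.pmn n (fun i => c i.succ) (fun i => r i.succ)) *
        (W.map (fst (M.P (c 0)).X Y) (M.eat (c 0) (r' 0)) * W.map (snd (M.P (c 0)).X Y)
          (M.pmn n (fun i => c i.succ) (fun i => r' i.succ)))) := by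
      rw [pmn_succ, pmn_succ]
      rfl
    rw [h4, h3, h1, Fin.prod_univ_succ (fun j => W.tr (M.P (c j)).X
      (M.eat (c j) (r j) * M.eat (c j) (r' j))), pow_mul, sgn_pow, trs]
    have h5 : (∏ j : Fin (n + 1), (if M.od (r j.succ) then (-1 : W.K) else 1)) ^
        (M.dg (r' 0).1 (r' 0).2) = ((if M.od (r' 0) then ∏ j : Fin (n + 1),
          (if M.od (r j.succ) then -1 else 1) else 1 : ℚ) : W.K) := by
      have h6 : (∏ j : Fin (n + 1), (if M.od (r j.succ) then (-1 : W.K) else 1)) =
          ((∏ j : Fin (n + 1), (if M.od (r j.succ) then (-1 : ℚ) else 1) : ℚ) : W.K) := by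
        rw [Rat.cast_prod]
        apply Finset.prod_congr rfl
        intro j _
        split_ifs <;> simp
      rw [h6]
      have h7 : (∏ j : Fin (n + 1), (if M.od (r j.succ) then (-1 : ℚ) else 1)) ^ 2 = 1 := by
        rw [← Finset.prod_pow]
        apply Finset.prod_eq_one
        intro j _
        split_ifs <;> norm_num
      unfold od at h7 ⊢
      by_cases h8 : Odd (M.dg (r' 0).1 (r' 0).2)
      · obtain ⟨m, hm⟩ := h8
        have h9 : Odd (M.dg (r' 0).1 (r' 0).2) := ⟨m, hm⟩
        simp only [h9, decide_true, if_true]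
        rw [← Rat.cast_pow, hm, pow_add, pow_mul, h7, one_pow, one_mul, pow_one]
      · obtain ⟨m, hm⟩ := even_iff_exists_two_mul.1 (Nat.not_odd_iff_even.1 h8)
        simp only [h8, decide_false, Bool.false_eq_true, if_false]
        rw [← Rat.cast_pow, hm, pow_mul, h7, one_pow]
    rw [h5, Rat.cast_mul]
    ring

variable (F : M.Full) [Fintype Λ]

/-- The matrix of the star operators. -/
noncomputable def Full.stm (m i : M.I) : W.K :=
  ∑ a, F.co a (st W (M.P a).X (M.P a).D (M.f a) (M.eat a i)) m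

lemma Full.st_ne {a : Λ} {i : M.I} (h : i.1 ≠ a) :
    st W (M.P a).X (M.P a).D (M.f a) (M.eat a i) = 0 := by
  rw [M.eat_ne h, map_zero]

lemma Full.stm_eq {a : Λ} {m i : M.I} (h : i.1 = a) :
    F.stm m i = F.co a (st W (M.P a).X (M.P a).D (M.f a) (M.eat a i)) m := by
  unfold Full.stm
  rw [Finset.sum_eq_single a]
  · intro b _ hb
    rw [M.eat_ne (a := b) (i := i) (fun h1 => hb (h1.symm.trans h)), map_zero, F.co_zero]
  · intro h0
    exact absurd (Finset.mem_univ _) h0

lemma st_gr (a : Λ) (i : M.I) : ∃ d, st W (M.P a).X (M.P a).D (M.f a) (M.eat a i) ∈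
    W.gr (M.P a).X d ∧ (Odd d ↔ Odd (M.dg i.1 i.2)) := by
  by_cases h : M.dg i.1 i.2 ≤ 2 * (M.P a).X.dim
  · refine ⟨_, (M.ls a).star_mem h (M.eat_mem a i), ?_⟩
    rw [Nat.odd_sub' h]
    simp
  · have h1 := M.eat_mem a i
    rw [W.gr_eq_bot _ _ (by omega)] at h1
    rw [(Submodule.mem_bot _).1 h1, map_zero]
    exact ⟨M.dg i.1 i.2, Submodule.zero_mem _, Iff.rfl⟩

lemma Full.stm_ne {m i : M.I} (h : F.stm m i ≠ 0) : M.bk m = M.bk i := by
  rw [F.stm_eq rfl] at h
  have h1 : m.1 = i.1 := by
    by_contra h1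
    exact h (F.co_ne h1)
  obtain ⟨d, hd, hd'⟩ := st_gr (M := M) i.1 i
  have h2 := F.co_gr hd h
  have h3 : M.od m = M.od i := by
    unfold od
    rw [h2]
    exact decide_eq_decide.2 hd'
  exact Prod.ext h1 h3

/-- The trace form in terms of the form and the star operators. -/
lemma Full.tr_eq (a : Λ) (i l : M.I) (hl : l.1 = a) : W.tr _ (M.eat a i * M.eat a l) =
    ∑ m, M.gd.g i m * F.stm m l := by
  have h1 : ∑ m, M.gd.g i m * F.stm m l =
      ∑ m, M.gd.g i m * F.co a (st W (M.P a).X (M.P a).D (M.f a) (M.eat a l)) m := by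
    apply Finset.sum_congr rfl
    intro m _
    rw [F.stm_eq hl]
  rw [h1, F.g_co, bf_apply]
  have h3 : st W (M.P a).X (M.P a).D (M.f a) * st W (M.P a).X (M.P a).D (M.f a) = 1 :=
    (M.ls a).star_star
  rw [← Module.End.mul_apply, h3, Module.End.one_apply]

/-- The tensor of the star operators. -/
noncomputable def Full.stu (r : Bool → M.I) : W.K :=
  ∑ p, F.stm (r false) p * M.cc p (r true)

/-- The part of the tensor of the star operators for a member. -/
noncomputable def Full.stua (a : Λ) (r : Fin 2 → M.I) : W.K :=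
  ∑ p, F.co a (st W (M.P a).X (M.P a).D (M.f a) (M.eat a p)) (r 0) * M.cc p (r 1)

lemma Full.stua_ne {a : Λ} {r : Fin 2 → M.I} (h : F.stua a r ≠ 0) :
    (r 0).1 = a ∧ M.bk (r 0) = M.bk (r 1) := by
  unfold Full.stua at h
  obtain ⟨p, _, hp⟩ := Finset.exists_ne_zero_of_sum_ne_zero h
  have h1 : M.cc p (r 1) ≠ 0 := fun h0 => hp (by rw [h0, mul_zero])
  have h2 : F.co a (st W (M.P a).X (M.P a).D (M.f a) (M.eat a p)) (r 0) ≠ 0 :=
    fun h0 => hp (by rw [h0, zero_mul])
  have h3 : p.1 = a := by
    by_contra h3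
    apply h2
    rw [M.eat_ne h3, map_zero, F.co_zero]
  have h4 : F.stm (r 0) p ≠ 0 := by rw [F.stm_eq h3]; exact h2
  have h5 : (r 0).1 = a := by
    by_contra h5
    exact h2 (F.co_ne h5)
  exact ⟨h5, (F.stm_ne h4).trans (M.cc_bk h1)⟩

lemma Full.stua_mem {N : ℕ} (hN : 2 ≤ N) (hst : ∀ a, AOp W (M.P a).X (M.P a).X
    (st W (M.P a).X (M.P a).D (M.f a))) (a : Λ) : F.stua a ∈ M.SN N (Fin 2) := by
  refine SN_self (n := 1) (by omega) (c := cst 1 a) ?_ ?_ ?_
  · intro r hr j
    obtain ⟨h1, h2⟩ := F.stua_ne hr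
    match j with
    | 0 => exact h1
    | 1 => exact (congrArg Prod.fst h2).symm.trans h1
  · intro r
    change (M.sgn r : W.K) * _ = _
    by_cases h : F.stua a r = 0
    · rw [h, mul_zero]
    · obtain ⟨_, h2⟩ := F.stua_ne h
      have h3 : M.od (r 0) = M.od (r 1) := congrArg Prod.snd h2
      have h4 : M.sgn r = 1 := by
        unfold sgn
        rw [Fin.prod_univ_two, h3]
        split_ifs <;> simp
      rw [h4, Int.cast_one, one_mul]
  · have h1 : M.cn 1 (cst 1 a) (F.stua a) =
        extOp W (st W (M.P a).X (M.P a).D (M.f a)) 1 (M.Ca a) := by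
      have e1 : extOp W (st W (M.P a).X (M.P a).D (M.f a)) 1 (M.Ca a) =
          ∑ i, ∑ j, M.cc i j • (W.map (fst _ _) (st W (M.P a).X (M.P a).D (M.f a) (M.eat a i)) *
            W.map (snd _ _) (M.eat a j)) := by
        unfold Ca
        rw [map_sum]
        apply Finset.sum_congr rfl
        intro i _
        rw [map_sum]
        apply Finset.sum_congr rfl
        intro j _
        rw [map_smul, extOp_tmul, Module.End.one_apply]
      rw [e1]
      have e2 : ∀ i, W.map (fst (M.P a).X (M.P a).X)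
          (st W (M.P a).X (M.P a).D (M.f a) (M.eat a i)) =
          ∑ m, F.co a (st W (M.P a).X (M.P a).D (M.f a) (M.eat a i)) m •
            W.map (fst (M.P a).X (M.P a).X) (M.eat a m) := by
        intro i
        conv_lhs => rw [← F.co_sum a (st W (M.P a).X (M.P a).D (M.f a) (M.eat a i))]
        rw [map_sum]
        simp only [map_smul]
      have e3 : ∀ i j, M.cc i j • (W.map (fst (M.P a).X (M.P a).X)
          (st W (M.P a).X (M.P a).D (M.f a) (M.eat a i)) *
            W.map (snd (M.P a).X (M.P a).X) (M.eat a j)) =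
          ∑ m, (F.co a (st W (M.P a).X (M.P a).D (M.f a) (M.eat a i)) m * M.cc i j) •
            (W.map (fst (M.P a).X (M.P a).X) (M.eat a m) *
              W.map (snd (M.P a).X (M.P a).X) (M.eat a j)) := by
        intro i j
        rw [e2, Finset.sum_mul, Finset.smul_sum]
        apply Finset.sum_congr rfl
        intro m _
        rw [smul_mul_assoc, smul_smul, mul_comm]
      simp only [e3]
      rw [cn_eq]
      have e4 : ∀ f : (Fin 2 → M.I) → W.H ((M.P a).X.prod (M.P a).X),
          ∑ r, f r = ∑ m, ∑ j, f ![m, j] := by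
        intro f
        rw [sum_cons, Finset.sum_comm]
        apply Finset.sum_congr rfl
        intro m _
        rw [sum_fin1]
        apply Finset.sum_congr rfl
        intro j _
        congr 1
        funext l
        fin_cases l <;> rfl
      refine (e4 _).trans ?_
      have e5 : ∀ m j : M.I, (F.stua a ![m, j] • M.pmn 1 (cst 1 a) ![m, j] :
          W.H ((M.P a).X.prod (M.P a).X)) =
          ∑ p, (F.co a (st W (M.P a).X (M.P a).D (M.f a) (M.eat a p)) m * M.cc p j) •
            (W.map (fst (M.P a).X (M.P a).X) (M.eat a m) *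
              W.map (snd (M.P a).X (M.P a).X) (M.eat a j)) := by
        intro m j
        have e6 : (M.pmn 1 (cst 1 a) ![m, j] : W.H ((M.P a).X.prod (M.P a).X)) =
            W.map (fst (M.P a).X (M.P a).X) (M.eat a m) *
              W.map (snd (M.P a).X (M.P a).X) (M.eat a j) := by
          refine (M.pmn_succ 0 (cst 1 a) ![m, j]).trans ?_
          rw [M.pmn_zero]
          rfl
        have e7 : F.stua a ![m, j] • (W.map (fst (M.P a).X (M.P a).X) (M.eat a m) *
              W.map (snd (M.P a).X (M.P a).X) (M.eat a j)) =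
            ∑ p, (F.co a (st W (M.P a).X (M.P a).D (M.f a) (M.eat a p)) m * M.cc p j) •
            (W.map (fst (M.P a).X (M.P a).X) (M.eat a m) *
              W.map (snd (M.P a).X (M.P a).X) (M.eat a j)) := by
          unfold Full.stua
          rw [Finset.sum_smul]
          rfl
        exact (congrArg (fun z => F.stua a ![m, j] • z) e6).trans e7
      simp only [e5]
      rw [Finset.sum_congr rfl (fun m _ => Finset.sum_comm), Finset.sum_comm]
      apply Finset.sum_congr rfl
      intro p _
      rw [Finset.sum_comm]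
    rw [h1]
    exact ((hst a).ext AOp.one).apply (Ca_AS a)

lemma Full.stu_mem {N : ℕ} (hN : 2 ≤ N) (hst : ∀ a, AOp W (M.P a).X (M.P a).X
    (st W (M.P a).X (M.P a).D (M.f a))) : F.stu ∈ M.SN N Bool := by
  have h1 : F.stu = ∑ a, H24FD.re finTwoEquiv (F.stua a) := by
    funext r
    rw [Finset.sum_apply]
    unfold Full.stu Full.stua Full.stm H24FD.re
    rw [Finset.sum_comm]
    apply Finset.sum_congr rfl
    intro p _
    rw [Finset.sum_mul]
    rfl
  rw [h1]
  exact Submodule.sum_mem _ fun a _ => (isSys_SN N).re finTwoEquiv (F.stua_mem hN hst a)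

/-- The star operator in a slot. -/
lemma Full.st_slot {N : ℕ} (hN : 2 ≤ N) (hst : ∀ a, AOp W (M.P a).X (M.P a).X
    (st W (M.P a).X (M.P a).D (M.f a))) {α : Type} [Fintype α] [DecidableEq α]
    {x : (α → M.I) → W.K} (hx : x ∈ M.SN N α) (a : α) :
    (fun r : α → M.I => ∑ i, F.stm (r a) i * x (Function.update r a i)) ∈ M.SN N α := by
  have h1 := (isSys_SN (M := M) N).slot hx a (F.stu_mem hN hst)
  convert h1 using 1
  funext r
  apply Finset.sum_congr rfl
  intro i _
  have h2 : ∑ j, M.gd.g i j * F.stu (two (r a) j) = F.stm (r a) i := by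
    have e1 : ∀ j, M.gd.g i j * F.stu (two (r a) j) =
        ∑ p, F.stm (r a) p * (M.gd.g i j * M.cc p j) := by
      intro j
      unfold Full.stu
      rw [Finset.mul_sum]
      apply Finset.sum_congr rfl
      intro p _
      change M.gd.g i j * (F.stm (r a) p * M.cc p j) = _
      ring
    simp only [e1]
    rw [Finset.sum_comm, Finset.sum_eq_single i]
    · have h3 := M.isGD.inv i i
      rw [if_pos rfl] at h3
      rw [← Finset.mul_sum]
      refine (congrArg (fun z => F.stm (r a) i * z) h3).trans (mul_one _)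
    · intro p _ hp
      have h3 := M.isGD.inv i p
      rw [if_neg (Ne.symm hp)] at h3
      rw [← Finset.mul_sum]
      refine (congrArg (fun z => F.stm (r a) p * z) h3).trans (mul_zero _)
    · intro h0
      exact absurd (Finset.mem_univ _) h0
  rw [← h2, Finset.sum_mul]
  apply Finset.sum_congr rfl
  intro j _
  ring

/-- The star operators in all the slots. -/
lemma Full.st_slots {N : ℕ} (hN : 2 ≤ N) (hst : ∀ a, AOp W (M.P a).X (M.P a).X
    (st W (M.P a).X (M.P a).D (M.f a))) {α : Type} [Fintype α] [DecidableEq α]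
    {x : (α → M.I) → W.K} (hx : x ∈ M.SN N α) :
    (fun r : α → M.I => ∑ r' : α → M.I, (∏ j, F.stm (r j) (r' j)) * x r') ∈ M.SN N α := by
  have key : ∀ s : Finset α, (fun r : α → M.I => ∑ r' : α → M.I,
      (∏ j, if j ∈ s then F.stm (r j) (r' j) else if r j = r' j then 1 else 0) * x r') ∈
        M.SN N α := by
    intro s
    induction s using Finset.induction_on with
    | empty =>
      convert hx using 1
      funext r
      rw [Finset.sum_eq_single r]
      · simp
      · intro r' _ hr
        obtain ⟨j, hj⟩ := Function.ne_iff.1 hr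
        rw [Finset.prod_eq_zero (Finset.mem_univ j), zero_mul]
        rw [if_neg (Finset.notMem_empty j), if_neg (Ne.symm hj)]
      · intro h0
        exact absurd (Finset.mem_univ _) h0
    | insert a s ha ih =>
      have h1 := F.st_slot hN hst ih a
      convert h1 using 1
      funext r
      simp only [Finset.mul_sum]
      rw [Finset.sum_comm]
      apply Finset.sum_congr rfl
      intro r' _
      have e1 : ∀ i, (∏ j, if j ∈ s then F.stm (Function.update r a i j) (r' j)
          else if Function.update r a i j = r' j then 1 else 0) =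
          (if i = r' a then 1 else 0) * ∏ j ∈ Finset.univ.erase a,
            (if j ∈ s then F.stm (r j) (r' j) else if r j = r' j then 1 else 0) := by
        intro i
        rw [← Finset.mul_prod_erase _ _ (Finset.mem_univ a), if_neg ha, Function.update_self]
        congr 1
        apply Finset.prod_congr rfl
        intro j hj
        rw [Function.update_of_ne (Finset.ne_of_mem_erase hj)]
      simp only [e1]
      rw [Finset.sum_eq_single (r' a)]
      · rw [← Finset.mul_prod_erase _ _ (Finset.mem_univ a), if_pos (Finset.mem_insert_self a s),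
          if_pos rfl, one_mul, mul_assoc]
        congr 2
        apply Finset.prod_congr rfl
        intro j hj
        have h2 : (j ∈ insert a s) ↔ j ∈ s := by
          rw [Finset.mem_insert]
          exact or_iff_right (Finset.ne_of_mem_erase hj)
        simp only [h2]
      · intro i _ hi
        rw [if_neg hi]; ring
      · intro h0
        exact absurd (Finset.mem_univ _) h0
  have h1 := key Finset.univ
  simpa using h1

/-- The tensor dual to `y` with respect to the trace form. -/
noncomputable def Full.du {n : ℕ} (y : (Fin (n + 1) → M.I) → W.K) (m : Fin (n + 1) → M.I) :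
    W.K :=
  (trs n (fun j => M.od (m j)) (fun j => M.od (m j)) : W.K) *
    ∑ r : Fin (n + 1) → M.I, (∏ j, F.stm (m j) (r j)) * y r

lemma Full.du_mem {N n : ℕ} (hN : 2 ≤ N) (hst : ∀ a, AOp W (M.P a).X (M.P a).X
    (st W (M.P a).X (M.P a).D (M.f a))) {y : (Fin (n + 1) → M.I) → W.K}
    (hy : y ∈ M.SN N (Fin (n + 1))) : F.du y ∈ M.SN N (Fin (n + 1)) :=
  wm_mem (S := fun α _ _ => M.SN N α) (isSys_SN N) (F.st_slots hN hst hy)
    (fun q => trs n (fun j => (q j).2) (fun j => (q j).2))

lemma Full.tr_cn {n : ℕ} {c : Fin (n + 1) → Λ} (x : (Fin (n + 1) → M.I) → W.K)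
    {y : (Fin (n + 1) → M.I) → W.K} (hy : M.Sup c y) :
    W.tr _ (M.cn n c x * M.cn n c y) = bfG M.gd x (F.du y) := by
  have e1 : W.tr _ (M.cn n c x * M.cn n c y) = ∑ r, ∑ r', x r * y r' *
      ((trs n (fun j => M.od (r j)) (fun j => M.od (r' j)) : W.K) *
        ∏ j, W.tr _ (M.eat (c j) (r j) * M.eat (c j) (r' j))) := by
    rw [cn_eq, cn_eq, Finset.sum_mul_sum, map_sum]
    apply Finset.sum_congr rfl
    intro r _
    rw [map_sum]
    apply Finset.sum_congr rfl
    intro r' _
    rw [smul_mul_smul_comm, map_smul, tr_pmn, smul_eq_mul]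
  have e2 : ∀ r r' : Fin (n + 1) → M.I, x r * y r' *
      ((trs n (fun j => M.od (r j)) (fun j => M.od (r' j)) : W.K) *
        ∏ j, W.tr _ (M.eat (c j) (r j) * M.eat (c j) (r' j))) =
      ∑ m : Fin (n + 1) → M.I, (∏ j, M.gd.g (r j) (m j)) * (x r *
        ((trs n (fun j => M.od (m j)) (fun j => M.od (m j)) : W.K) *
          ((∏ j, F.stm (m j) (r' j)) * y r'))) := by
    intro r r'
    by_cases h0 : y r' = 0
    · rw [h0]
      simp
    · have h1 : ∏ j, W.tr _ (M.eat (c j) (r j) * M.eat (c j) (r' j)) =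
          ∑ m : Fin (n + 1) → M.I, (∏ j, M.gd.g (r j) (m j)) * ∏ j, F.stm (m j) (r' j) := by
        rw [Finset.prod_congr rfl (fun j _ => F.tr_eq (c j) (r j) (r' j) (hy r' h0 j)),
          Finset.prod_univ_sum, Fintype.piFinset_univ]
        apply Finset.sum_congr rfl
        intro m _
        rw [Finset.prod_mul_distrib]
      rw [h1, Finset.mul_sum, Finset.mul_sum]
      apply Finset.sum_congr rfl
      intro m _
      by_cases h2 : ∀ j, M.gd.g (r j) (m j) ≠ 0 ∧ F.stm (m j) (r' j) ≠ 0
      · have h3 : (fun j => M.od (r j)) = fun j => M.od (m j) := by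
          funext j
          by_contra h4
          exact (h2 j).1 (M.g_bk (fun h5 => h4 (congrArg Prod.snd h5)))
        have h4 : (fun j => M.od (r' j)) = fun j => M.od (m j) := by
          funext j
          exact (congrArg Prod.snd (F.stm_ne (h2 j).2)).symm
        rw [h3, h4]
        ring
      · have h3 : (∏ j, M.gd.g (r j) (m j)) * ∏ j, F.stm (m j) (r' j) = 0 := by
          push Not at h2
          obtain ⟨j, hj⟩ := h2
          by_cases h4 : M.gd.g (r j) (m j) = 0
          · have h5 : ∏ j, M.gd.g (r j) (m j) = 0 := Finset.prod_eq_zero (Finset.mem_univ j) h4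
            rw [h5, zero_mul]
          · have h5 : ∏ j, F.stm (m j) (r' j) = 0 :=
              Finset.prod_eq_zero (Finset.mem_univ j) (hj h4)
            rw [h5, mul_zero]
        linear_combination (x r * y r' * (trs n (fun j => M.od (r j)) (fun j => M.od (r' j)) : W.K) -
          x r * (trs n (fun j => M.od (m j)) (fun j => M.od (m j)) : W.K) * y r') * h3
  rw [e1]
  simp only [e2]
  unfold bfG
  apply Finset.sum_congr rfl
  intro r _
  rw [Finset.sum_comm]
  apply Finset.sum_congr rfl
  intro m _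
  unfold Full.du
  rw [Finset.mul_sum, Finset.mul_sum, Finset.mul_sum]

/-- The symmetry of the form of a product. -/
lemma syN : ∀ (n : ℕ) (c : Fin (n + 1) → Λ), Sy W (M.nst n c).X (M.nst n c).D (M.fN n c)
  | 0, c => bf_sy (M.fr (c 0)) (M.ls (c 0))
  | n + 1, c => Sy.prod (M.fr (c 0)) (M.frN n (fun i => c i.succ))
      (bf_sy (M.fr (c 0)) (M.ls (c 0))) (syN n (fun i => c i.succ))

lemma bfG_add {n : ℕ} (x y : (Fin (n + 1) → M.I) → W.K) (t : W.K) :
    bfG M.gd (x + t • y) (x + t • y) = bfG M.gd x x + t * (bfG M.gd x y + bfG M.gd y x) +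
      t ^ 2 * bfG M.gd y y := by
  unfold bfG
  rw [← Finset.sum_add_distrib, Finset.mul_sum, Finset.mul_sum, ← Finset.sum_add_distrib,
    ← Finset.sum_add_distrib]
  apply Finset.sum_congr rfl
  intro r _
  rw [← Finset.sum_add_distrib, Finset.mul_sum, Finset.mul_sum, ← Finset.sum_add_distrib,
    ← Finset.sum_add_distrib]
  apply Finset.sum_congr rfl
  intro r' _
  simp only [Pi.add_apply, Pi.smul_apply, smul_eq_mul]
  ring

/-- A rational quadratic polynomial. -/
lemma lin_zero {b d : ℚ} (h : ∀ t : ℚ, 0 ≤ t * b + t ^ 2 * d) : b = 0 := by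
  have hd : 0 ≤ d := by
    by_contra h0
    push Not at h0
    have h1 := h 1
    have h2 := h (-1)
    nlinarith
  have h3 := h (-b / (d + 1))
  have h4 : -b / (d + 1) * b + (-b / (d + 1)) ^ 2 * d = -(b ^ 2 / (d + 1) ^ 2) := by
    have h5 : d + 1 ≠ 0 := by linarith
    field_simp
    ring
  rw [h4] at h3
  have h5 : 0 ≤ b ^ 2 / (d + 1) ^ 2 := by positivity
  have h6 : b ^ 2 / (d + 1) ^ 2 = 0 := by linarith
  have h7 : (d + 1) ^ 2 ≠ 0 := by positivity
  rw [div_eq_zero_iff] at h6
  rcases h6 with h6 | h6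
  · exact pow_eq_zero_iff (two_ne_zero) |>.1 h6
  · exact absurd h6 h7

include F in
/-- **The radical of the form.** -/
theorem gen_radical {N : ℕ} (hN : 3 ≤ N) (h1 : ∃ a, (1 : W.H (M.P a).X) ≠ 0)
    (hst : ∀ a, AOp W (M.P a).X (M.P a).X (st W (M.P a).X (M.P a).D (M.f a)))
    (hH : ∀ n < N, ∀ c : Fin (n + 1) → Λ, HodgeSemi W (M.nst n c).X (M.nst n c).D)
    {n : ℕ} {c : Fin (n + 1) → Λ}
    {z w : W.H (nest ops n (fun i => M.P (c i))).X} (hz : Gen W M.P N n c z)
    (hz0 : bf W (M.nst n c).X (M.nst n c).D (M.fN n c) z z = 0) (hw : Gen W M.P N n c w) :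
    W.tr _ (z * w) = 0 := by
  obtain ⟨x, hx, hxs, rfl⟩ := (net_of_gen F hN hz).sup
  obtain ⟨y, hy, hys, rfl⟩ := (net_of_gen F hN hw).sup
  rw [F.tr_cn x hys]
  set v := F.du y with hv
  have hv' : v ∈ M.SN N (Fin (n + 1)) := F.du_mem (by omega) hst hy
  have hxx : bfG M.gd x x = 0 := by rw [hxs.bfG]; exact hz0
  obtain ⟨b, hb⟩ : ∃ q : ℚ, bfG M.gd x v = q := by
    obtain ⟨q, hq⟩ := rat_empty F h1 ((isSys_SN N).bf hx hv')
    exact ⟨q, congrFun hq Empty.elim⟩
  have hsym : bfG M.gd v x = bfG M.gd x v := by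
    rw [hxs.bfG, bfG_eq, Finset.sum_eq_single c]
    · have h2 := syN (M := M) n c (M.cn n c x) (M.cn n c v)
      have h3 : par (W.isInternal (M.nst n c).X) (M.cn n c v) = M.cn n c v :=
        par_as (AlgS.as (SN_le F hv') _ (List.nodup_finRange _) List.mem_finRange)
      rw [h3] at h2
      exact h2.symm
    · intro c' _ hc
      rw [hxs.cn_ne hc, map_zero]
    · intro h0
      exact absurd (Finset.mem_univ _) h0
  obtain ⟨d, hd0, hd⟩ := pos_all F hN h1 hH hv'
  have h2 : ∀ t : ℚ, 0 ≤ t * (2 * b) + t ^ 2 * d := by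
    intro t
    have hmem : x + (t : W.K) • v ∈ M.SN N (Fin (n + 1)) := by
      have e1 : (t : W.K) • v = t • v := by
        funext r
        rw [Pi.smul_apply, Pi.smul_apply, Rat.smul_def, smul_eq_mul]
      rw [e1]
      exact Submodule.add_mem _ hx (Submodule.smul_mem _ _ hv')
    obtain ⟨q, hq0, hq⟩ := pos_all F hN h1 hH hmem
    rw [bfG_add, hxx, hsym, hb, hd] at hq
    have h3 : t * (2 * b) + t ^ 2 * d = q := by
      have h4 : ((t * (2 * b) + t ^ 2 * d : ℚ) : W.K) = q := by
        rw [← hq]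
        push_cast
        ring
      exact_mod_cast h4
    rw [h3]
    exact hq0
  have h3 := lin_zero h2
  have h4 : b = 0 := by linarith
  rw [hb, h4, Rat.cast_zero]

end Fam

end Pool.Agent.H24FG
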