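import Pool.Agent.H24FD.Cle
import Pool.Agent.W552.TautFr

/-!
# Families of polarized varieties and the tensors on the cohomology of the members
-/

open CategoryTheory AlgebraicGeometry

set_option autoImplicit false
set_option linter.unusedSectionVars false

universe u v w

namespace Pool.Agent.H24FG

open Pool.Agent.H24FD hiding bf bf_add_left bf_add_right
open Pool.Agent.H914 Pool.Agent.H914.VarClass Pool.Agent.H914.VarClass.Obj
  Pool.Agent.H914.WeilCohomology Pool.Agent.H281R3.HT Pool.Agent.W552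

variable {k : Type u} [Field k] {𝒱 : VarClass k} {ops : CycleOps 𝒱}

/-- A family of polarized varieties with vectors in the cohomology of the members. -/
structure Fam (W : WeilCohomology.{u, v} ops) (Λ : Type) where
  /-- the members -/
  P : Λ → Polarized 𝒱
  /-- the lowering operators -/
  f : ∀ a, Module.End W.K (W.H (P a).X)
  fr : ∀ a, Fr W (P a).X (P a).D (f a)
  ls : ∀ a, LefStr (W.isInternal (P a).X) (P a).X.dim
    (LinearMap.mulLeft W.K (W.cl (P a).X (P a).D)) (f a)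
  /-- the number of vectors -/
  N : Λ → ℕ
  /-- the vectors -/
  e : ∀ a, Fin (N a) → W.H (P a).X
  /-- the degrees -/
  dg : ∀ a, Fin (N a) → ℕ
  mem : ∀ a p, e a p ∈ W.gr (P a).X (dg a p)
  /-- the dual tensor -/
  c : ∀ a, Fin (N a) → Fin (N a) → W.K
  cpar : ∀ a p q, c a p q ≠ 0 → (Odd (dg a p) ↔ Odd (dg a q))
  inv : ∀ a p q, ∑ r, bf W (P a).X (P a).D (f a) (e a p) (e a r) * c a q r =
    if p = q then 1 else 0
  alg : ∀ a (o : Bool), AS W ((P a).X.prod (P a).X) (∑ p, ∑ q,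
    (if decide (Odd (dg a p)) = o then c a p q else 0) •
      (W.map (fst _ _) (e a p) * W.map (snd _ _) (e a q)))
  /-- the class of the form -/
  kap : ∀ a, W.H ((P a).X.prod (P a).X)
  hkap : ∀ a, AS W _ (kap a)
  tkap : ∀ a x y, W.tr _ (kap a * (W.map (fst _ _) x * W.map (snd _ _) y)) =
    bf W (P a).X (P a).D (f a) x y

variable {W : WeilCohomology.{u, v} ops} {Λ : Type}

namespace Fam

variable (M : Fam W Λ)

/-- The indices. -/
abbrev I := Σ a, Fin (M.N a)

/-- The parity. -/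
def od (i : M.I) : Bool := decide (Odd (M.dg i.1 i.2))

/-- The block. -/
def bk (i : M.I) : Λ × Bool := (i.1, M.od i)

variable [DecidableEq Λ]

/-- The vector with the index `i` if it belongs to the member `a`, and `0` otherwise. -/
noncomputable def eat (a : Λ) (i : M.I) : W.H (M.P a).X :=
  if h : i.1 = a then M.e a (h ▸ i.2) else 0

lemma eat_self (a : Λ) (p : Fin (M.N a)) : M.eat a ⟨a, p⟩ = M.e a p := by
  simp [eat]

lemma eat_ne {a : Λ} {i : M.I} (h : i.1 ≠ a) : M.eat a i = 0 := dif_neg h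

lemma eat_mem (a : Λ) (i : M.I) : M.eat a i ∈ W.gr (M.P a).X (M.dg i.1 i.2) := by
  by_cases h : i.1 = a
  · obtain ⟨b, p⟩ := i
    subst h
    rw [eat_self]
    exact M.mem b p
  · rw [M.eat_ne h]
    exact Submodule.zero_mem _

lemma sum_col [Fintype Λ] {T : Type*} [AddCommMonoid T] (a : Λ) (F : M.I → T)
    (hF : ∀ i, i.1 ≠ a → F i = 0) : ∑ i, F i = ∑ p, F ⟨a, p⟩ := by
  rw [Fintype.sum_sigma, Finset.sum_eq_single a]
  · intro b _ hb
    exact Finset.sum_eq_zero fun p _ => hF ⟨b, p⟩ hb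
  · intro h0
    exact absurd (Finset.mem_univ _) h0

/-- The coefficients of the dual tensor. -/
noncomputable def cc (i j : M.I) : W.K := if h : j.1 = i.1 then M.c i.1 i.2 (h ▸ j.2) else 0

lemma cc_self (a : Λ) (p q : Fin (M.N a)) : M.cc ⟨a, p⟩ ⟨a, q⟩ = M.c a p q := by
  simp [cc]

lemma cc_ne {i j : M.I} (h : j.1 ≠ i.1) : M.cc i j = 0 := dif_neg h

variable [Fintype Λ]

/-- The form and the dual tensor. -/
noncomputable def gd : GD W.K M.I (Λ × Bool) where
  blk := M.bk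
  g i j := ∑ a, bf W (M.P a).X (M.P a).D (M.f a) (M.eat a i) (M.eat a j)
  c i j := M.cc i j

lemma g_apply (i j : M.I) : M.gd.g i j =
    ∑ a, bf W (M.P a).X (M.P a).D (M.f a) (M.eat a i) (M.eat a j) := rfl

lemma g_self (a : Λ) (p q : Fin (M.N a)) : M.gd.g ⟨a, p⟩ ⟨a, q⟩ =
    bf W (M.P a).X (M.P a).D (M.f a) (M.e a p) (M.e a q) := by
  rw [g_apply, Finset.sum_eq_single a, eat_self, eat_self]
  · intro b _ hb
    rw [M.eat_ne (a := b) (i := ⟨a, p⟩) (Ne.symm hb)]
    simp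
  · intro h0
    exact absurd (Finset.mem_univ _) h0

lemma g_ne {i j : M.I} (h : i.1 ≠ j.1) : M.gd.g i j = 0 := by
  rw [g_apply]
  apply Finset.sum_eq_zero
  intro a _
  by_cases ha : i.1 = a
  · rw [M.eat_ne (a := a) (i := j) (fun h1 => h (ha.trans h1.symm)), map_zero]
  · rw [M.eat_ne ha, map_zero, LinearMap.zero_apply]

lemma g_bk {i j : M.I} (h : M.bk i ≠ M.bk j) : M.gd.g i j = 0 := by
  by_cases h1 : i.1 = j.1
  · obtain ⟨a, p⟩ := i
    obtain ⟨b, q⟩ := j
    obtain rfl : a = b := h1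
    rw [g_self]
    apply (M.fr a).bf_deg (M.mem a p) (M.mem a q)
    intro h2
    apply h
    simp only [bk, od, h2]
  · exact M.g_ne h1

lemma cc_bk {i j : M.I} (h : M.cc i j ≠ 0) : M.bk i = M.bk j := by
  have h1 : j.1 = i.1 := by
    by_contra h1
    exact h (M.cc_ne h1)
  obtain ⟨a, p⟩ := i
  obtain ⟨b, q⟩ := j
  obtain rfl : b = a := h1
  rw [cc_self] at h
  have h2 := M.cpar b p q h
  simp only [bk, od, h2]

lemma isGD : IsGD M.gd Prod.snd where
  inv i k := by
    change ∑ j, M.gd.g i j * M.cc k j = _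
    obtain ⟨a, p⟩ := k
    rw [M.sum_col a]
    · by_cases hi : i.1 = a
      · obtain ⟨b, q⟩ := i
        obtain rfl : b = a := hi
        simp only [g_self, cc_self]
        rw [M.inv b q p]
        by_cases hqp : q = p
        · rw [if_pos hqp, hqp, if_pos rfl]
        · rw [if_neg hqp, if_neg]
          intro h0
          apply hqp
          simpa using h0
      · rw [if_neg (fun h0 => hi (by rw [h0]))]
        apply Finset.sum_eq_zero
        intro q _
        rw [M.g_ne (j := ⟨a, q⟩) hi, zero_mul]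
    · intro j hj
      rw [M.cc_ne hj, mul_zero]
  blk i j h := M.g_bk h
  symm i j := by
    by_cases h1 : i.1 = j.1
    · obtain ⟨a, p⟩ := i
      obtain ⟨b, q⟩ := j
      obtain rfl : a = b := h1
      rw [g_self, g_self, bf_symm' (M.fr a) (M.ls a) (M.mem a p) (M.mem a q)]
      congr 1
      change _ = if M.od ⟨a, p⟩ = true then (-1 : W.K) else 1
      unfold od
      by_cases h2 : Odd (M.dg a p)
      · rw [h2.neg_one_pow]
        simp [h2]
      · rw [(Nat.not_odd_iff_even.1 h2).neg_one_pow]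
        simp [h2]
    · rw [M.g_ne h1, M.g_ne (Ne.symm h1), mul_zero]

lemma hb (i j : M.I) (h : M.gd.c i j ≠ 0) : (M.gd.blk i).2 = (M.gd.blk j).2 :=
  congrArg Prod.snd (M.cc_bk h)

/-- A slot: a morphism to a member of the family. -/
abbrev Slot (Y : 𝒱.Obj) := Σ a, (Y ⟶ (M.P a).X)

/-- The vectors in a slot. -/
noncomputable def ev {Y : 𝒱.Obj} (s : M.Slot Y) (i : M.I) : W.H Y := W.map s.2 (M.eat s.1 i)

omit [Fintype Λ] in
lemma ev_mem {Y : 𝒱.Obj} (s : M.Slot Y) (i : M.I) : M.ev s i ∈ W.gr Y (M.dg i.1 i.2) :=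
  W.map_mem _ (M.eat_mem _ _)

omit [Fintype Λ] in
lemma ev_ne {Y : 𝒱.Obj} {s : M.Slot Y} {i : M.I} (h : i.1 ≠ s.1) : M.ev s i = 0 := by
  rw [ev, M.eat_ne h, map_zero]

omit [Fintype Λ] in
lemma sign_od (i j : M.I) : (-1 : W.K) ^ (M.dg i.1 i.2 * M.dg j.1 j.2) =
    if M.od i && M.od j then -1 else 1 := by
  unfold od
  by_cases h1 : Odd (M.dg i.1 i.2)
  · by_cases h2 : Odd (M.dg j.1 j.2)
    · rw [(h1.mul h2).neg_one_pow]; simp [h1, h2]
    · rw [((Nat.not_odd_iff_even.1 h2).mul_left _).neg_one_pow]; simp [h2]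
  · rw [((Nat.not_odd_iff_even.1 h1).mul_right _).neg_one_pow]; simp [h1]

omit [Fintype Λ] in
lemma sc {α : Type} {Y : 𝒱.Obj} (s : α → M.Slot Y) : SC W.K M.od (fun a => M.ev (s a)) := by
  intro a a' i i'
  rw [← sign_od]
  exact W.comm (M.ev_mem _ _) (M.ev_mem _ _)

/-- The pull-back of a slot. -/
def pl {Y Z : 𝒱.Obj} (g : Z ⟶ Y) (s : M.Slot Y) : M.Slot Z := ⟨s.1, g ≫ s.2⟩

omit [Fintype Λ] in
lemma ev_pl {Y Z : 𝒱.Obj} (g : Z ⟶ Y) (s : M.Slot Y) (i : M.I) :
    M.ev (M.pl g s) i = W.map g (M.ev s i) := W.map_comp _ _ _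

end Fam

end Pool.Agent.H24FG
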