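import Pool.Agent.H24FG.Eqc

/-!
# Finite determinacy of the standard conjecture of Hodge type
-/

open CategoryTheory AlgebraicGeometry

set_option autoImplicit false

universe u v w

namespace Pool.Agent.H24FG

open Pool.Agent.H914 Pool.Agent.H914.VarClass Pool.Agent.H914.VarClass.Obj
  Pool.Agent.H914.WeilCohomology Pool.Agent.H281R3.HT Pool.Agent.W552

variable {k : Type u} [Field k] {𝒱 : VarClass k} {ops : CycleOps 𝒱}
  {W : WeilCohomology.{u, v} ops}

/-- The consequences for cycles of the semipositivity of the form. -/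
lemma hodgeNumOn_of {X : 𝒱.Obj} {D : X.Cycles} {f : Module.End W.K (W.H X)} (F : Fr W X D f)
    {G : W.H X → Prop} (hpos : ∀ z, G z → ∃ q : ℚ, 0 ≤ q ∧ bf W X D f z z = q)
    (hrad : ∀ z w, G z → bf W X D f z z = 0 → G w → W.tr X (z * w) = 0) :
    HodgeNumOn W X D G := by
  intro j hj z hz hG hprim
  have hf := F.form_prim hj hz hprim
  have hfac : (0 : ℚ) < (X.dim - 2 * j).factorial := by exact_mod_cast Nat.factorial_pos _
  constructor
  · obtain ⟨q, hq0, hq⟩ := hpos _ hG
    rw [hf] at hq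
    have h2 : (-1 : ℚ) ^ j * (((X.dim - 2 * j).factorial : ℚ)⁻¹ *
        X.V.degCycle (ops.mul z (divPow ops D (X.dim - 2 * j) z))) = q := by exact_mod_cast hq
    have h3 : (-1 : ℚ) ^ j * X.V.degCycle (ops.mul z (divPow ops D (X.dim - 2 * j) z)) =
        (X.dim - 2 * j).factorial * q := by
      rw [← h2]
      field_simp
    rw [h3]
    exact mul_nonneg hfac.le hq0
  · intro h0 w hw hGw
    rw [h0, mul_zero, mul_zero, Rat.cast_zero] at hf
    have h2 := hrad _ _ hG hf hGw
    have h3 : X.IsCyc X.dim (ops.mul z w) := by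
      have := ops.mul_mem hz hw
      rwa [show j + (X.dim - j) = X.dim by omega] at this
    rw [← W.cl_mul, W.tr_cl h3] at h2
    exact_mod_cast h2

/-- The case of a variety without cohomology. -/
lemma hodgeNumOn_zero {X : 𝒱.Obj} {D : X.Cycles} (hD : X.IsCyc 1 D) (h : ∀ x : W.H X, x = 0)
    (G : W.H X → Prop) : HodgeNumOn W X D G := by
  intro j hj z hz _ _
  have h3 : ∀ y : X.Cycles, X.IsCyc X.dim y → X.V.degCycle y = 0 := by
    intro y hy
    have h4 := W.tr_cl hy
    rw [h (W.cl X y), map_zero] at h4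
    exact_mod_cast h4.symm
  have h4 : X.IsCyc X.dim (ops.mul z (divPow ops D (X.dim - 2 * j) z)) := by
    have := ops.mul_mem hz (divPow_mem (ops := ops) hD (X.dim - 2 * j) hz)
    rwa [show j + (j + (X.dim - 2 * j)) = X.dim by omega] at this
  rw [h3 _ h4]
  refine ⟨by simp, fun _ w hw _ => h3 _ ?_⟩
  have := ops.mul_mem hz hw
  rwa [show j + (X.dim - j) = X.dim by omega] at this

/-- The standard conjecture of Hodge type, modulo numerical equivalence, for the generated
classes. -/
theorem hodgeNumOn_gen {Λ : Type} [Finite Λ] {P : Λ → Polarized 𝒱}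
    (hD : ∀ a, (P a).X.IsCyc 1 (P a).D) (hHL : ∀ a, HardLefschetz W (P a).X (P a).D)
    (hB : ∀ a, LefschetzB W (P a).X (P a).D) {N : ℕ} (hN : 3 ≤ N)
    (hH : ∀ n < N, ∀ c : Fin (n + 1) → Λ, HodgeSemi W (nest ops n (fun i => P (c i))).X
      (nest ops n (fun i => P (c i))).D) (n : ℕ) (c : Fin (n + 1) → Λ) :
    HodgeNumOn W (nest ops n (fun i => P (c i))).X (nest ops n (fun i => P (c i))).D
      (Gen W P N n c) := by
  classical
  have := Fintype.ofFinite Λ
  have hp : ∀ a i, AOp W (P a).X (P a).X (proj (W.isInternal (P a).X) i) :=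
    fun a => proj_aop (hD a) (hHL a) (hB a)
  obtain ⟨M, rfl, ⟨F⟩⟩ := exists_full P hD hHL hB
  have hst : ∀ a, AOp W (M.P a).X (M.P a).X (st W (M.P a).X (M.P a).D (M.f a)) :=
    fun a => st_aop (M.fr a) (hp a)
  by_cases h1 : ∃ a, (1 : W.H (M.P a).X) ≠ 0
  · exact hodgeNumOn_of (M.frN n c) (fun z hz => Fam.gen_nonneg F hN h1 hH hz)
      (fun z w hz h0 hw => Fam.gen_radical F hN h1 hst hH hz h0 hw)
  · push Not at h1
    refine hodgeNumOn_zero (M.frN n c).hD (fun x => ?_) _
    rw [← one_mul x, ← map_one (W.map (prj ops n (fun i => M.P (c i)) 0)), h1, map_zero,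
      zero_mul]

end Pool.Agent.H24FG
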