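import Pool.Agent.H24FG.Net
import Pool.Agent.W552.IrrProj

/-!
# Families with bases of the cohomology of the members
-/

open CategoryTheory AlgebraicGeometry

set_option autoImplicit false
set_option linter.unusedSectionVars false

universe u v w

namespace Pool.Agent.H24FG

open Pool.Agent.H24FD hiding bf bf_add_left bf_add_right
open Pool.Agent.H914 Pool.Agent.H914.VarClass Pool.Agent.H914.VarClass.Obj
  Pool.Agent.H914.WeilCohomology Pool.Agent.H281R3.HT Pool.Agent.W552

variable {k : Type u} [Field k] {𝒱 : VarClass k} {ops : CycleOps 𝒱}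
  {W : WeilCohomology.{u, v} ops} {Λ : Type}

/-- A homogeneous element has no coordinates in other degrees. -/
lemma basis_repr_gr {X : 𝒱.Obj} {N : ℕ} (B : Module.Basis (Fin N) W.K (W.H X)) {dg : Fin N → ℕ}
    (hB : ∀ p, B p ∈ W.gr X (dg p)) {d : ℕ} {x : W.H X} (hx : x ∈ W.gr X d) {p : Fin N}
    (hp : dg p ≠ d) : B.repr x p = 0 := by
  classical
  have h1 : x = ∑ q, B.repr x q • proj (W.isInternal X) d (B q) := by
    conv_lhs => rw [← proj_same (W.isInternal X) hx, ← B.sum_repr x]
    rw [map_sum]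
    simp only [map_smul]
  have h2 : ∀ q, proj (W.isInternal X) d (B q) = (if dg q = d then (1 : W.K) else 0) • B q := by
    intro q
    by_cases h0 : dg q = d
    · rw [if_pos h0, one_smul]
      exact proj_same _ (h0 ▸ hB q)
    · rw [if_neg h0, zero_smul]
      exact proj_ne _ (hB q) h0
  rw [h1]
  simp only [h2, map_sum, map_smul, Module.Basis.repr_self, smul_smul]
  rw [Finsupp.finsetSum_apply, Finset.sum_eq_single p]
  · rw [if_neg hp]; simp
  · intro q _ hq
    rw [Finsupp.smul_apply, Finsupp.single_eq_of_ne (Ne.symm hq), smul_zero]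
  · intro h0; exact absurd (Finset.mem_univ _) h0

namespace Fam

variable (M : Fam W Λ)

/-- Bases of the cohomology of the members. -/
structure Full where
  /-- the basis -/
  B : ∀ a, Module.Basis (Fin (M.N a)) W.K (W.H (M.P a).X)
  hB : ∀ a p, B a p = M.e a p
  par : ∀ a, AOp W (M.P a).X (M.P a).X (par (W.isInternal (M.P a).X))

variable {M} (F : M.Full) [DecidableEq Λ]

/-- The coordinates. -/
noncomputable def Full.co (a : Λ) (x : W.H (M.P a).X) (i : M.I) : W.K :=
  if h : i.1 = a then (F.B a).repr x (h ▸ i.2) else 0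

lemma Full.co_self (a : Λ) (x : W.H (M.P a).X) (p : Fin (M.N a)) :
    F.co a x ⟨a, p⟩ = (F.B a).repr x p := by
  simp [Full.co]

lemma Full.co_ne {a : Λ} {x : W.H (M.P a).X} {i : M.I} (h : i.1 ≠ a) : F.co a x i = 0 :=
  dif_neg h

lemma Full.co_zero (a : Λ) (i : M.I) : F.co a 0 i = 0 := by
  unfold Full.co
  split_ifs <;> simp

lemma Full.co_gr {a : Λ} {x : W.H (M.P a).X} {d : ℕ} (hx : x ∈ W.gr _ d) {i : M.I}
    (h : F.co a x i ≠ 0) : M.dg i.1 i.2 = d := by
  have h1 : i.1 = a := by
    by_contra h1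
    exact h (F.co_ne h1)
  obtain ⟨b, p⟩ := i
  obtain rfl : b = a := h1
  rw [F.co_self] at h
  by_contra h2
  exact h (basis_repr_gr (F.B b) (dg := M.dg b) (fun p => by rw [F.hB]; exact M.mem b p) hx h2)

variable [Fintype Λ]

lemma Full.co_sum (a : Λ) (x : W.H (M.P a).X) : ∑ i, F.co a x i • M.eat a i = x := by
  rw [M.sum_col a _ (fun i hi => by rw [F.co_ne hi, zero_smul])]
  conv_rhs => rw [← (F.B a).sum_repr x]
  apply Finset.sum_congr rfl
  intro p _
  rw [F.co_self, M.eat_self, F.hB]

include F in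
/-- Every class on a product has coordinates. -/
lemma Full.exists_cn : ∀ (n : ℕ) (c : Fin (n + 1) → Λ) (z : W.H (M.nst n c).X),
    ∃ x : (Fin (n + 1) → M.I) → W.K, M.cn n c x = z
  | 0, c, z => by
    refine ⟨fun r => F.co (c 0) z (r 0), ?_⟩
    rw [cn_eq]
    simp only [pmn_zero]
    rw [← (Equiv.funUnique (Fin 1) M.I).symm.sum_comp]
    exact F.co_sum (c 0) z
  | n + 1, c, z => by
    refine W.kunneth_induction (X := (M.P (c 0)).X) (Y := (M.nst n (fun i => c i.succ)).X)
      (p := fun z => ∃ x : (Fin (n + 2) → M.I) → W.K, M.cn (n + 1) c x = z) ?_ ?_ z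
    · rintro z z' ⟨x, rfl⟩ ⟨x', rfl⟩
      exact ⟨x + x', cl_add _ _ _ _⟩
    · intro i j a _ b _
      obtain ⟨y, rfl⟩ := Full.exists_cn n (fun i => c i.succ) b
      refine ⟨fun r => F.co (c 0) a (r 0) * y (fun i => r i.succ), ?_⟩
      have e1 : W.map (fst (M.P (c 0)).X (M.nst n (fun i => c i.succ)).X) a *
          W.map (snd (M.P (c 0)).X (M.nst n (fun i => c i.succ)).X) (M.cn n (fun i => c i.succ) y) =
          ∑ r : Fin (n + 2) → M.I, (F.co (c 0) a (r 0) * y (fun i => r i.succ)) •
            (W.map (fst (M.P (c 0)).X (M.nst n (fun i => c i.succ)).X) (M.eat (c 0) (r 0)) *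
              W.map (snd (M.P (c 0)).X (M.nst n (fun i => c i.succ)).X)
                (M.pmn n (fun i => c i.succ) (fun i => r i.succ))) := by
        conv_lhs => rw [← F.co_sum (c 0) a]
        rw [cn_eq, map_sum, map_sum, Finset.sum_mul_sum, sum_cons, Finset.sum_comm]
        apply Finset.sum_congr rfl
        intro r _
        apply Finset.sum_congr rfl
        intro i _
        rw [map_smul, map_smul, smul_mul_smul_comm]
        simp only [Fin.cons_zero, Fin.cons_succ]
      refine Eq.trans ?_ e1.symm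
      rw [cn_eq]
      apply Finset.sum_congr rfl
      intro r _
      exact congrArg _ (M.pmn_succ n c r)

omit F [Fintype Λ] in
lemma pmn_mem : ∀ (n : ℕ) (c : Fin (n + 1) → Λ) (r : Fin (n + 1) → M.I),
    M.pmn n c r ∈ W.gr (M.nst n c).X (∑ j, M.dg (r j).1 (r j).2)
  | 0, c, r => by
    rw [pmn_zero, Fin.sum_univ_succ, Fin.sum_univ_zero, add_zero]
    exact M.eat_mem _ _
  | n + 1, c, r => by
    rw [pmn_succ, Fin.sum_univ_succ]
    exact W.mul_mem (W.map_mem _ (M.eat_mem _ _)) (W.map_mem _ (pmn_mem n _ _))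

variable (M) in
/-- The sign of the total parity. -/
def sgn {α : Type} [Fintype α] (r : α → M.I) : ℤ := ∏ j, if M.od (r j) then -1 else 1

omit F [Fintype Λ] in
lemma sgn_cases {α : Type} [Fintype α] (r : α → M.I) : M.sgn r = 1 ∨ M.sgn r = -1 := by
  classical
  unfold sgn
  generalize (Finset.univ : Finset α) = s
  induction s using Finset.induction_on with
  | empty => left; simp
  | insert a s ha ih =>
    rw [Finset.prod_insert ha]
    rcases ih with h | h <;> rw [h] <;> split_ifs <;> simp

omit F [Fintype Λ] in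
lemma par_pmn (n : ℕ) (c : Fin (n + 1) → Λ) (r : Fin (n + 1) → M.I) :
    par (W.isInternal (M.nst n c).X) (M.pmn n c r) = (M.sgn r : W.K) • M.pmn n c r := by
  rw [par, scal_apply _ _ (pmn_mem n c r)]
  congr 1
  rw [← Finset.prod_pow_eq_pow_sum, sgn, Int.cast_prod]
  apply Finset.prod_congr rfl
  intro j _
  unfold od
  by_cases h : Odd (M.dg (r j).1 (r j).2)
  · rw [h.neg_one_pow]; simp [h]
  · rw [(Nat.not_odd_iff_even.1 h).neg_one_pow]; simp [h]

include F in
/-- An algebraic class on a product has coordinates with the correct support. -/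
lemma Full.exists_gn (n : ℕ) (c : Fin (n + 1) → Λ) {z : W.H (M.nst n c).X}
    (hz : AS W (M.nst n c).X z) : ∃ x : (Fin (n + 1) → M.I) → W.K, M.Sup c x ∧
      EvG M.gd Prod.snd x ∧ M.cn n c x = z := by
  classical
  obtain ⟨x, rfl⟩ := F.exists_cn n c z
  set y : (Fin (n + 1) → M.I) → W.K := fun r =>
    if (∀ j, (r j).1 = c j) ∧ M.sgn r = 1 then x r else 0 with hy
  refine ⟨y, ?_, ?_, ?_⟩
  · intro r hr
    by_contra h0
    apply hr
    rw [hy]
    beta_reduce
    rw [if_neg (fun h => h0 h.1)]
  · intro r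
    change (M.sgn r : W.K) * y r = y r
    rcases sgn_cases r with h | h
    · rw [h, Int.cast_one, one_mul]
    · have h1 : y r = 0 := by
        rw [hy]
        beta_reduce
        rw [if_neg]
        rintro ⟨_, h2⟩
        rw [h] at h2
        norm_num at h2
      rw [h1, mul_zero]
  · have h1 := par_as hz
    have h2 : M.cn n c x = ∑ r, ((M.sgn r : W.K) * x r) • M.pmn n c r := by
      rw [← h1, cn_eq, map_sum]
      apply Finset.sum_congr rfl
      intro r _
      rw [map_smul, par_pmn, smul_smul, mul_comm]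
    have h3 : (2 : W.K) • M.cn n c y = (2 : W.K) • M.cn n c x := by
      rw [two_smul W.K (M.cn n c x)]
      conv_rhs => rw [h2]
      rw [← h2]
      nth_rewrite 2 [h2]
      rw [cn_eq, cn_eq, ← Finset.sum_add_distrib, Finset.smul_sum]
      apply Finset.sum_congr rfl
      intro r _
      rw [smul_smul, ← add_smul]
      by_cases h4 : ∀ j, (r j).1 = c j
      · congr 1
        rw [hy]
        beta_reduce
        rcases sgn_cases r with h | h
        · rw [if_pos ⟨h4, h⟩, h]; push_cast; ring
        · rw [if_neg, h]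
          · push_cast; ring
          · rintro ⟨_, h5⟩
            rw [h] at h5
            norm_num at h5
      · push Not at h4
        obtain ⟨j, hj⟩ := h4
        have h5 : M.pmn n c r = 0 := by
          unfold pmn mono
          apply List.prod_eq_zero
          refine List.mem_map.2 ⟨j, List.mem_finRange j, ?_⟩
          exact M.ev_ne (s := M.sl n c j) hj
        rw [h5, smul_zero, smul_zero]
    have h4 := congrArg (fun z => (2 : W.K)⁻¹ • z) h3
    beta_reduce at h4
    rwa [smul_smul, smul_smul, inv_mul_cancel₀ two_ne_zero, one_smul, one_smul] at h4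

variable (M) in
/-- The generators: the coordinates of the algebraic classes on the products of at most `N`
members. -/
structure Gn (N : ℕ) where
  /-- the number of members, minus one -/
  n : ℕ
  hn : n < N
  /-- the members -/
  c : Fin (n + 1) → Λ
  /-- the coordinates -/
  x : (Fin (n + 1) → M.I) → W.K
  sup : M.Sup c x
  ev : EvG M.gd Prod.snd x
  alg : AS W (M.nst n c).X (M.cn n c x)

variable (M) in
/-- The system generated by the algebraic classes on the products of at most `N` members. -/
noncomputable def SN (N : ℕ) (α : Type) [Fintype α] [DecidableEq α] :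
    Submodule ℚ ((α → M.I) → W.K) :=
  genG M.gd (A := fun g : M.Gn N => Fin (g.n + 1)) (fun g : M.Gn N => g.x) α

lemma isSys_SN (N : ℕ) : IsSysG M.gd (fun α _ _ => M.SN N α) := isSysG_gen

include F in
lemma SN_le {N : ℕ} {α : Type} [Fintype α] [DecidableEq α] {x : (α → M.I) → W.K}
    (hx : x ∈ M.SN N α) : x ∈ M.AlgS α :=
  genG_le M.isSysG_AlgS (fun g => g.sup.mem_AlgS F.par g.alg) hx

/-- The coordinates of the algebraic classes. -/
lemma SN_self {N n : ℕ} (hn : n < N) {c : Fin (n + 1) → Λ} {x : (Fin (n + 1) → M.I) → W.K}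
    (h1 : M.Sup c x) (h2 : EvG M.gd Prod.snd x) (h3 : AS W (M.nst n c).X (M.cn n c x)) :
    x ∈ M.SN N (Fin (n + 1)) :=
  genG_self (A := fun g : M.Gn N => Fin (g.n + 1)) (v := fun g : M.Gn N => g.x)
    (⟨n, hn, c, x, h1, h2, h3⟩ : M.Gn N)

include F in
lemma Net.alg {N n : ℕ} (hn : n < N) {c : Fin (n + 1) → Λ} {z : W.H (M.nst n c).X}
    (hz : AS W (M.nst n c).X z) : M.Net (fun α _ _ => M.SN N α) (M.sl n c) z := by
  obtain ⟨x, h1, h2, rfl⟩ := F.exists_gn n c hz
  exact ⟨x, SN_self hn h1 h2 hz, List.finRange (n + 1), List.nodup_finRange _,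
    List.mem_finRange, rfl⟩

end Fam

end Pool.Agent.H24FG
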