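import Pool.Agent.H24FG.Full

/-!
# The tensors of the products, of the units and of the traces
-/

open CategoryTheory AlgebraicGeometry

set_option autoImplicit false
set_option linter.unusedSectionVars false

universe u v w

namespace Pool.Agent.H24FG

open Pool.Agent.H24FD hiding bf bf_add_left bf_add_right
open Pool.Agent.H914 Pool.Agent.H914.VarClass Pool.Agent.H914.VarClass.Obj
  Pool.Agent.H914.WeilCohomology Pool.Agent.H281R3.HT Pool.Agent.W552

variable {k : Type u} [Field k] {𝒱 : VarClass k} {ops : CycleOps 𝒱}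
  {W : WeilCohomology.{u, v} ops} {Λ : Type}

namespace Fam

variable {M : Fam W Λ} (F : M.Full) [DecidableEq Λ] [Fintype Λ]

lemma sum_fin1 {ι : Type} [Fintype ι] [DecidableEq ι] {T : Type*} [AddCommMonoid T]
    (f : (Fin 1 → ι) → T) : ∑ r, f r = ∑ i, f (fun _ => i) := by
  rw [← (Equiv.funUnique (Fin 1) ι).symm.sum_comp]
  rfl

/-- The product of members `(a, a, a)` etc. as a constant family. -/
abbrev cst (n : ℕ) (a : Λ) : Fin (n + 1) → Λ := fun _ => a

lemma cn_zero (a : Λ) (y : (Fin 1 → M.I) → W.K) :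
    M.cn 0 (cst 0 a) y = ∑ i, y (fun _ => i) • M.eat a i := by
  rw [cn_eq, sum_fin1]
  apply Finset.sum_congr rfl
  intro i _
  exact congrArg _ (M.pmn_zero _ _)

/-- Vectors of even degree given by algebraic classes. -/
lemma Full.vec {N : ℕ} (hN : 0 < N) (a : Λ) {x : W.H (M.P a).X} (hx : AS W _ x) :
    (fun r : Fin 1 → M.I => F.co a x (r 0)) ∈ M.SN N (Fin 1) := by
  refine SN_self (n := 0) hN (c := cst 0 a) ?_ ?_ ?_
  · intro r hr j
    obtain rfl : j = 0 := Fin.eq_zero j
    by_contra h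
    exact hr (F.co_ne h)
  · intro r
    change (M.sgn r : W.K) * F.co a x (r 0) = F.co a x (r 0)
    refine AS.ind (p := fun x => (M.sgn r : W.K) * F.co a x (r 0) = F.co a x (r 0)) ?_ ?_ hx
    · intro j x hx
      by_cases h : F.co a x (r 0) = 0
      · rw [h, mul_zero]
      · have h1 := F.co_gr (alg_gr hx) h
        have h2 : M.sgn r = 1 := by
          unfold sgn
          rw [Fin.prod_univ_succ, Fin.prod_univ_zero, mul_one, if_neg]
          unfold od
          rw [h1]
          simp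
        rw [h2, Int.cast_one, one_mul]
    · intro x y hx hy
      have h3 : F.co a (x + y) (r 0) = F.co a x (r 0) + F.co a y (r 0) := by
        unfold Full.co
        split_ifs <;> simp
      rw [h3, mul_add, hx, hy]
  · have h4 : M.cn 0 (cst 0 a) (fun r : Fin 1 → M.I => F.co a x (r 0)) = x := by
      rw [cn_zero]
      exact F.co_sum a x
    rw [h4]
    exact hx

lemma Full.g_co (a : Λ) (x : W.H (M.P a).X) (i : M.I) :
    ∑ j, M.gd.g i j * F.co a x j = bf W (M.P a).X (M.P a).D (M.f a) (M.eat a i) x := by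
  conv_rhs => rw [← F.co_sum a x]
  rw [map_sum]
  apply Finset.sum_congr rfl
  intro j _
  rw [map_smul, smul_eq_mul, mul_comm]
  by_cases h : j.1 = a
  · congr 1
    rw [M.g_apply, Finset.sum_eq_single a]
    · intro b _ hb
      rw [M.eat_ne (a := b) (i := j) (fun h1 => hb (h1.symm.trans h)), map_zero]
    · intro h0
      exact absurd (Finset.mem_univ _) h0
  · rw [F.co_ne h, zero_mul, zero_mul]

/-- The contraction of the first indices. -/
lemma g_cc' (i k : M.I) : ∑ p, M.gd.g p i * M.cc p k = if i = k then 1 else 0 := by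
  have h1 : (Matrix.of M.gd.g) * (Matrix.of fun i j => M.cc j i : Matrix M.I M.I W.K) = 1 := by
    ext i k
    rw [Matrix.mul_apply, Matrix.one_apply]
    exact M.isGD.inv i k
  have h2 := mul_eq_one_comm.1 h1
  have h3 := congrFun (congrFun h2 k) i
  rw [Matrix.mul_apply, Matrix.one_apply] at h3
  simp only [Matrix.of_apply] at h3
  rw [show (if i = k then (1 : W.K) else 0) = if k = i then 1 else 0 by
    by_cases h : i = k
    · rw [if_pos h, if_pos h.symm]
    · rw [if_neg h, if_neg (Ne.symm h)], ← h3]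
  apply Finset.sum_congr rfl
  intro p _
  exact mul_comm _ _

/-- The sign of a parity. -/
def ep (o : Bool) : ℚ := if o then -1 else 1

/-- The sign of two parities. -/
def ep2 (o o' : Bool) : ℚ := if o && o' then -1 else 1

lemma ep_sq (o : Bool) : ep o * ep o = 1 := by cases o <;> simp [ep]

lemma ep2_sq (o o' : Bool) : ep2 o o' * ep2 o o' = 1 := by cases o <;> cases o' <;> simp [ep2]

lemma g_swap (i j : M.I) : M.gd.g i j * (ep (M.od j) : W.K) = M.gd.g j i := by
  rw [M.isGD.symm j i, mul_comm, ← mul_assoc]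
  change (ep (M.od j) : W.K) * (if M.od j = true then -1 else 1) * _ = _
  cases h : M.od j <;> simp [ep]

lemma g_cc (i k : M.I) : ∑ p, M.gd.g i p * (ep (M.od p) : W.K) * M.cc p k =
    if i = k then 1 else 0 := by
  rw [← g_cc']
  apply Finset.sum_congr rfl
  intro p _
  rw [g_swap]

/-- The coefficients of the tensor of the multiplication. -/
noncomputable def Full.mm (a : Λ) (r : Fin 3 → M.I) : W.K :=
  ∑ i, ∑ j, M.cc (r 0) i * M.cc (r 1) j * F.co a (M.eat a i * M.eat a j) (r 2)

lemma sum_fin3 {ι : Type} [Fintype ι] [DecidableEq ι] {T : Type*} [AddCommMonoid T]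
    (f : (Fin 3 → ι) → T) : ∑ r, f r = ∑ p, ∑ q, ∑ t, f (thr p q t) := by
  let e : (Fin 3 → ι) ≃ ι × ι × ι :=
    { toFun := fun r => (r 0, r 1, r 2)
      invFun := fun p => thr p.1 p.2.1 p.2.2
      left_inv := fun r => by funext j; fin_cases j <;> rfl
      right_inv := fun p => rfl }
  rw [← e.symm.sum_comp, Fintype.sum_prod_type]
  apply Finset.sum_congr rfl
  intro p _
  rw [Fintype.sum_prod_type]
  rfl

lemma Full.mm_ne {a : Λ} {r : Fin 3 → M.I} (h : F.mm a r ≠ 0) :
    ∃ i j, M.bk (r 0) = M.bk i ∧ M.bk (r 1) = M.bk j ∧ i.1 = a ∧ j.1 = a ∧ (r 2).1 = a ∧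
      M.dg (r 2).1 (r 2).2 = M.dg i.1 i.2 + M.dg j.1 j.2 := by
  unfold Full.mm at h
  obtain ⟨i, _, hi⟩ := Finset.exists_ne_zero_of_sum_ne_zero h
  obtain ⟨j, _, hj⟩ := Finset.exists_ne_zero_of_sum_ne_zero hi
  have h1 : M.cc (r 0) i ≠ 0 := fun h0 => hj (by rw [h0, zero_mul, zero_mul])
  have h2 : M.cc (r 1) j ≠ 0 := fun h0 => hj (by rw [h0, mul_zero, zero_mul])
  have h3 : F.co a (M.eat a i * M.eat a j) (r 2) ≠ 0 := fun h0 => hj (by rw [h0, mul_zero])
  refine ⟨i, j, M.cc_bk h1, M.cc_bk h2, ?_, ?_, ?_, ?_⟩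
  · by_contra h0
    apply h3
    rw [M.eat_ne h0, zero_mul, F.co_zero]
  · by_contra h0
    apply h3
    rw [M.eat_ne h0, mul_zero, F.co_zero]
  · by_contra h0
    exact h3 (F.co_ne h0)
  · exact F.co_gr (W.mul_mem (M.eat_mem _ _) (M.eat_mem _ _)) h3

lemma Full.mm_contr (a : Λ) (i j t : M.I) : ∑ p, ∑ q, M.gd.g i p * M.gd.g j q *
    ((ep (M.od p) : W.K) * (ep (M.od q) : W.K) * F.mm a (thr p q t)) =
      F.co a (M.eat a i * M.eat a j) t := by
  have e1 : ∀ p q, M.gd.g i p * M.gd.g j q *
      ((ep (M.od p) : W.K) * (ep (M.od q) : W.K) * F.mm a (thr p q t)) =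
      ∑ k, ∑ l, (M.gd.g i p * (ep (M.od p) : W.K) * M.cc p k) *
        (M.gd.g j q * (ep (M.od q) : W.K) * M.cc q l) *
          F.co a (M.eat a k * M.eat a l) t := by
    intro p q
    unfold Full.mm
    rw [Finset.mul_sum, Finset.mul_sum]
    apply Finset.sum_congr rfl
    intro k _
    rw [Finset.mul_sum, Finset.mul_sum]
    apply Finset.sum_congr rfl
    intro l _
    change _ * (_ * (M.cc p k * M.cc q l * F.co a (M.eat a k * M.eat a l) t)) = _
    ring
  simp only [e1]
  have e2 : ∀ p, ∑ q, ∑ k, ∑ l, (M.gd.g i p * (ep (M.od p) : W.K) * M.cc p k) *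
        (M.gd.g j q * (ep (M.od q) : W.K) * M.cc q l) *
          F.co a (M.eat a k * M.eat a l) t =
      ∑ k, ∑ l, (M.gd.g i p * (ep (M.od p) : W.K) * M.cc p k) *
        (∑ q, M.gd.g j q * (ep (M.od q) : W.K) * M.cc q l) *
          F.co a (M.eat a k * M.eat a l) t := by
    intro p
    rw [Finset.sum_comm]
    apply Finset.sum_congr rfl
    intro k _
    rw [Finset.sum_comm]
    apply Finset.sum_congr rfl
    intro l _
    rw [Finset.mul_sum, Finset.sum_mul]
  simp only [e2, g_cc]
  have e3 : ∀ p, ∑ k, ∑ l, (M.gd.g i p * (ep (M.od p) : W.K) * M.cc p k) *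
        (if j = l then 1 else 0) * F.co a (M.eat a k * M.eat a l) t =
      ∑ k, (M.gd.g i p * (ep (M.od p) : W.K) * M.cc p k) *
        F.co a (M.eat a k * M.eat a j) t := by
    intro p
    apply Finset.sum_congr rfl
    intro k _
    rw [Finset.sum_eq_single j]
    · rw [if_pos rfl, mul_one]
    · intro l _ hl
      rw [if_neg (Ne.symm hl), mul_zero, zero_mul]
    · intro h0
      exact absurd (Finset.mem_univ _) h0
  simp only [e3]
  rw [Finset.sum_comm, Finset.sum_eq_single i]
  · rw [← Finset.sum_mul, g_cc, if_pos rfl, one_mul]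
  · intro k' _ hk
    rw [← Finset.sum_mul, g_cc, if_neg (Ne.symm hk), zero_mul]
  · intro h0
    exact absurd (Finset.mem_univ _) h0

variable (M) in
/-- The class of the dual tensor. -/
noncomputable def Ca (a : Λ) : W.H ((M.P a).X.prod (M.P a).X) :=
  ∑ i, ∑ j, M.cc i j • (W.map (fst _ _) (M.eat a i) * W.map (snd _ _) (M.eat a j))

lemma Ca_eq (a : Λ) : M.Ca a = ∑ p, ∑ q, M.c a p q •
    (W.map (fst _ _) (M.e a p) * W.map (snd _ _) (M.e a q)) := by
  unfold Ca
  rw [M.sum_col a]
  · apply Finset.sum_congr rfl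
    intro p _
    rw [M.sum_col a]
    · apply Finset.sum_congr rfl
      intro q _
      rw [M.cc_self, M.eat_self, M.eat_self]
    · intro j hj
      rw [M.eat_ne hj, map_zero, mul_zero, smul_zero]
  · intro i hi
    apply Finset.sum_eq_zero
    intro j _
    rw [M.eat_ne hi, map_zero, zero_mul, smul_zero]

lemma Ca_AS (a : Λ) : AS W _ (M.Ca a) := by
  have h1 := (M.alg a false).add (M.alg a true)
  have h2 : M.Ca a = (∑ p, ∑ q,
    (if decide (Odd (M.dg a p)) = false then M.c a p q else 0) •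
      (W.map (fst _ _) (M.e a p) * W.map (snd _ _) (M.e a q))) + (∑ p, ∑ q,
    (if decide (Odd (M.dg a p)) = true then M.c a p q else 0) •
      (W.map (fst _ _) (M.e a p) * W.map (snd _ _) (M.e a q))) := by
    rw [Ca_eq, ← Finset.sum_add_distrib]
    apply Finset.sum_congr rfl
    intro p _
    rw [← Finset.sum_add_distrib]
    apply Finset.sum_congr rfl
    intro q _
    rw [← add_smul]
    congr 1
    by_cases h : Odd (M.dg a p) <;> simp [h]
  rw [h2]
  exact h1

/-- The class of the multiplication. -/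
lemma Full.cn_mm (a : Λ) : AS W (M.nst 2 (cst 2 a)).X (M.cn 2 (cst 2 a)
    (fun r => (ep2 (M.od (r 0)) (M.od (r 1)) : W.K) * F.mm a r)) := by
  set X := (M.P a).X with hX
  have h1 : AS W (X.prod (X.prod X))
      (W.map (Obj.lift (fst X (X.prod X)) (snd X (X.prod X) ≫ snd X X)) (M.Ca a) *
        W.map (snd X (X.prod X)) (M.Ca a)) := ((Ca_AS a).map _).mul ((Ca_AS a).map _)
  have hC : ∀ {Y : 𝒱.Obj} (g : Y ⟶ X.prod X), W.map g (M.Ca a) = ∑ i, ∑ j, M.cc i j •
      (W.map (g ≫ fst X X) (M.eat a i) * W.map (g ≫ snd X X) (M.eat a j)) := by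
    intro Y g
    unfold Ca
    rw [map_sum]
    apply Finset.sum_congr rfl
    intro i _
    rw [map_sum]
    apply Finset.sum_congr rfl
    intro j _
    rw [map_smul, map_mul, ← W.map_comp, ← W.map_comp]
  rw [hC, hC, lift_fst, lift_snd] at h1
  set π1 : M.I → W.H (X.prod (X.prod X)) := fun i => W.map (fst X (X.prod X)) (M.eat a i) with hπ1
  set π2 : M.I → W.H (X.prod (X.prod X)) := fun i =>
    W.map (snd X (X.prod X) ≫ fst X X) (M.eat a i) with hπ2
  set π3 : M.I → W.H (X.prod (X.prod X)) := fun i =>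
    W.map (snd X (X.prod X) ≫ snd X X) (M.eat a i) with hπ3
  have h2 : (∑ i, ∑ j, M.cc i j • (π1 i * π3 j)) * (∑ i, ∑ j, M.cc i j • (π2 i * π3 j)) =
      ∑ p, ∑ q, ∑ t, ((ep2 (M.od p) (M.od q) : W.K) * F.mm a (thr p q t)) •
        (π1 p * (π2 q * π3 t)) := by
    rw [Finset.sum_mul_sum]
    apply Finset.sum_congr rfl
    intro p _
    apply Finset.sum_congr rfl
    intro q _
    rw [Finset.sum_mul_sum]
    have e1 : ∀ i j, M.cc p i • (π1 p * π3 i) * M.cc q j • (π2 q * π3 j) =
        ∑ t, ((ep2 (M.od p) (M.od q) : W.K) * (M.cc p i * M.cc q j *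
          F.co a (M.eat a i * M.eat a j) t)) • (π1 p * (π2 q * π3 t)) := by
      intro i j
      have e2 : π3 i * π2 q = (ep2 (M.od i) (M.od q) : W.K) • (π2 q * π3 i) := by
        have e3 := W.comm (W.map_mem (snd X (X.prod X) ≫ snd X X) (M.eat_mem a i))
          (W.map_mem (snd X (X.prod X) ≫ fst X X) (M.eat_mem a q))
        rw [M.sign_od] at e3
        rw [hπ3, hπ2]
        beta_reduce
        rw [e3]
        congr 1
        unfold ep2
        split_ifs <;> simp
      have e4 : π3 i * π3 j = ∑ t, F.co a (M.eat a i * M.eat a j) t • π3 t := by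
        rw [hπ3]
        beta_reduce
        rw [← map_mul]
        conv_lhs => rw [← F.co_sum a (M.eat a i * M.eat a j)]
        rw [map_sum]
        simp only [map_smul]
      rw [smul_mul_smul_comm, mul_assoc (π1 p), ← mul_assoc (π3 i), e2, smul_mul_assoc,
        mul_assoc (π2 q), e4, mul_smul_comm, smul_smul, Finset.mul_sum, Finset.mul_sum,
        Finset.smul_sum]
      apply Finset.sum_congr rfl
      intro t _
      rw [mul_smul_comm, mul_smul_comm, smul_smul]
      congr 1
      by_cases h0 : M.cc p i = 0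
      · rw [h0]; ring
      · have h5 : M.od p = M.od i := congrArg Prod.snd (M.cc_bk h0)
        rw [h5]; ring
    simp only [e1]
    have e5 : ∀ t, ((ep2 (M.od p) (M.od q) : W.K) * F.mm a (thr p q t)) •
        (π1 p * (π2 q * π3 t)) = ∑ i, ∑ j, ((ep2 (M.od p) (M.od q) : W.K) *
          (M.cc p i * M.cc q j * F.co a (M.eat a i * M.eat a j) t)) •
            (π1 p * (π2 q * π3 t)) := by
      intro t
      unfold Full.mm
      rw [Finset.mul_sum, Finset.sum_smul]
      apply Finset.sum_congr rfl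
      intro i _
      rw [Finset.mul_sum, Finset.sum_smul]
      rfl
    simp only [e5]
    rw [Finset.sum_congr rfl (fun i _ => Finset.sum_comm), Finset.sum_comm]
  have h3 : M.cn 2 (cst 2 a) (fun r => (ep2 (M.od (r 0)) (M.od (r 1)) : W.K) * F.mm a r) =
      ∑ p, ∑ q, ∑ t, ((ep2 (M.od p) (M.od q) : W.K) * F.mm a (thr p q t)) •
        (π1 p * (π2 q * π3 t)) := by
    rw [cn_eq, sum_fin3]
    apply Finset.sum_congr rfl
    intro p _
    apply Finset.sum_congr rfl
    intro q _
    apply Finset.sum_congr rfl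
    intro t _
    have e6 : M.pmn 2 (cst 2 a) (thr p q t) = π1 p * (π2 q * π3 t) := by
      rw [M.pmn_succ 1 (cst 2 a) (thr p q t), M.pmn_succ 0 _ _, M.pmn_zero]
      change W.map (fst X (X.prod X)) (M.eat a p) * W.map (snd X (X.prod X))
        (W.map (fst X X) (M.eat a q) * W.map (snd X X) (M.eat a t)) = _
      rw [map_mul (W.map (snd X (X.prod X))), ← W.map_comp, ← W.map_comp]
    rw [e6]
    rfl
  rw [h3, ← h2]
  exact h1

lemma Full.mm_sup (a : Λ) : M.Sup (cst 2 a)
    (fun r => (ep2 (M.od (r 0)) (M.od (r 1)) : W.K) * F.mm a r) := by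
  intro r hr j
  have hr' : F.mm a r ≠ 0 := fun h0 => hr (by beta_reduce; rw [h0, mul_zero])
  obtain ⟨i, l, h1, h2, h3, h4, h5, _⟩ := F.mm_ne hr'
  have e1 : (r 0).1 = i.1 := congrArg Prod.fst h1
  have e2 : (r 1).1 = l.1 := congrArg Prod.fst h2
  match j with
  | 0 => exact e1.trans h3
  | 1 => exact e2.trans h4
  | 2 => exact h5

lemma Full.mm_ev (a : Λ) : EvG M.gd Prod.snd
    (fun r => (ep2 (M.od (r 0)) (M.od (r 1)) : W.K) * F.mm a r) := by
  intro r
  change (M.sgn r : W.K) * _ = _
  by_cases h : F.mm a r = 0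
  · beta_reduce
    rw [h, mul_zero, mul_zero]
  obtain ⟨i, l, h1, h2, _, _, _, h6⟩ := F.mm_ne h
  have e1 : M.od (r 0) = M.od i := congrArg Prod.snd h1
  have e2 : M.od (r 1) = M.od l := congrArg Prod.snd h2
  have h3 : M.sgn r = 1 := by
    unfold sgn
    rw [Fin.prod_univ_three, e1, e2]
    unfold od
    rw [h6]
    by_cases h7 : Odd (M.dg i.1 i.2)
    · by_cases h8 : Odd (M.dg l.1 l.2)
      · simp [h7, h8, h7.add_odd h8]
      · have h9 := h7.add_even (Nat.not_odd_iff_even.1 h8)
        simp [h7, h8, h9]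
    · by_cases h8 : Odd (M.dg l.1 l.2)
      · have h9 := (Nat.not_odd_iff_even.1 h7).add_odd h8
        simp [h7, h8, h9]
      · have h9 := (Nat.not_odd_iff_even.1 h7).add (Nat.not_odd_iff_even.1 h8)
        simp [h7, h8, h9]
  rw [h3, Int.cast_one, one_mul]

include F in
/-- The system generated by the algebraic classes on the products of at most three members
contains the tensors of the products, the units and the traces. -/
theorem Full.good {N : ℕ} (hN : 3 ≤ N) : M.Good (fun α _ _ => M.SN N α) where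
  sys := isSys_SN N
  mul a := by
    refine ⟨fun r => (ep (M.od (r 0)) : W.K) * (ep (M.od (r 1)) : W.K) * F.mm a r, ?_, ?_⟩
    · have h1 := SN_self (N := N) (n := 2) (by omega) (F.mm_sup a) (F.mm_ev a) (F.cn_mm a)
      have h2 := wm_mem (S := fun α _ _ => M.SN N α) (isSys_SN N) h1
        (fun q => ep (q 0).2 * ep (q 1).2 * ep2 (q 0).2 (q 1).2)
      convert h2 using 1
      funext r
      unfold wm
      have h3 := ep2_sq (M.od (r 0)) (M.od (r 1))
      have h4 : (ep2 (M.od (r 0)) (M.od (r 1)) : W.K) * (ep2 (M.od (r 0)) (M.od (r 1)) : W.K) = 1 := by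
        exact_mod_cast congrArg (Rat.cast (K := W.K)) h3
      change _ = ((ep (M.od (r 0)) * ep (M.od (r 1)) * ep2 (M.od (r 0)) (M.od (r 1)) : ℚ) : W.K) *
        ((ep2 (M.od (r 0)) (M.od (r 1)) : W.K) * F.mm a r)
      push_cast
      linear_combination (-((ep (M.od (r 0)) : W.K) * (ep (M.od (r 1)) : W.K) * F.mm a r)) * h4
    · intro i j
      conv_lhs => rw [← F.co_sum a (M.eat a i * M.eat a j)]
      apply Finset.sum_congr rfl
      intro t _
      congr 1
      exact (F.mm_contr a i j t).symm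
  one a := ⟨_, F.vec (by omega) a AS.one, (F.co_sum a 1).symm⟩
  tr a := by
    refine ⟨_, F.vec (by omega) a ((M.fr a).st_AS AS.one), fun i => ?_⟩
    have h1 := F.g_co a (st W (M.P a).X (M.P a).D (M.f a) 1) i
    refine h1.trans ?_
    have h2 : st W (M.P a).X (M.P a).D (M.f a) (st W (M.P a).X (M.P a).D (M.f a) 1) = 1 := by
      have h3 : st W (M.P a).X (M.P a).D (M.f a) * st W (M.P a).X (M.P a).D (M.f a) = 1 :=
        (M.ls a).star_star
      rw [← Module.End.mul_apply, h3, Module.End.one_apply]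
    rw [bf_apply, h2, mul_one]

end Fam

end Pool.Agent.H24FG
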