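import Pool.Agent.H24FG.Pos

/-!
# Positivity on the generated classes
-/

open CategoryTheory AlgebraicGeometry

set_option autoImplicit false
set_option linter.unusedSectionVars false

universe u v w

namespace Pool.Agent.H24FG

open Pool.Agent.H24FD hiding bf bf_add_left bf_add_right
open Pool.Agent.H914 Pool.Agent.H914.VarClass Pool.Agent.H914.VarClass.Obj
  Pool.Agent.H914.WeilCohomology Pool.Agent.H281R3.HT Pool.Agent.W552

variable {k : Type u} [Field k] {𝒱 : VarClass k} {ops : CycleOps 𝒱}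
  {W : WeilCohomology.{u, v} ops} {Λ : Type}

lemma bfG_re {K : Type v} [CommRing K] {ι κ : Type} [Fintype ι] [DecidableEq ι] [DecidableEq κ]
    (G : GD K ι κ) {α β : Type} [Fintype α] [DecidableEq α] [Fintype β] [DecidableEq β]
    (e : α ≃ β) (x y : (α → ι) → K) : bfG G (re e x) (re e y) = bfG G x y := by
  unfold bfG re
  rw [sum_re e]
  apply Finset.sum_congr rfl
  intro i _
  rw [sum_re e]
  apply Finset.sum_congr rfl
  intro j _
  rw [← e.prod_comp]
  simp

namespace Fam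

variable {M : Fam W Λ} (F : M.Full) [DecidableEq Λ] [Fintype Λ]

lemma AlgS.as {α : Type} [Fintype α] [DecidableEq α] {x : (α → M.I) → W.K} (hx : x ∈ M.AlgS α)
    {Y : 𝒱.Obj} (s : α → M.Slot Y) {L : List α} (h1 : L.Nodup) (h2 : ∀ a, a ∈ L) :
    AS W Y (M.cl s L x) := by
  have h := hx (fun _ => 1) Y s L h1 h2
  rwa [wm_one] at h

/-- A scalar which gives an algebraic class is rational. -/
lemma rat_of_as {a : Λ} (h1 : (1 : W.H (M.P a).X) ≠ 0) {r : W.K}
    (h : AS W (M.P a).X (r • (1 : W.H (M.P a).X))) : ∃ q : ℚ, r = q := by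
  obtain ⟨q, hq⟩ := (M.fr a).bf_rat h AS.one
  obtain ⟨q', hq'⟩ := (M.fr a).bf_rat (AS.one (W := W) (X := (M.P a).X)) AS.one
  have h2 : q' ≠ 0 := by
    intro h0
    apply h1
    rw [h0, Rat.cast_zero, bf_apply, one_mul] at hq'
    have h3 : st W (M.P a).X (M.P a).D (M.f a) 1 ∈ W.gr (M.P a).X (2 * (M.P a).X.dim) := by
      have := (M.ls a).star_mem (Nat.zero_le _) (W.one_mem (M.P a).X)
      rwa [Nat.sub_zero] at this
    have h4 := eq_zero_of_top h3 hq'
    have h5 : st W (M.P a).X (M.P a).D (M.f a) * st W (M.P a).X (M.P a).D (M.f a) = 1 :=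
      (M.ls a).star_star
    have h6 := congrArg (fun G => G 1) h5
    beta_reduce at h6
    rw [Module.End.mul_apply, h4, map_zero, Module.End.one_apply] at h6
    exact h6.symm
  rw [map_smul, LinearMap.smul_apply, smul_eq_mul, hq'] at hq
  refine ⟨q / q', ?_⟩
  have h3 : (q' : W.K) ≠ 0 := by exact_mod_cast h2
  rw [Rat.cast_div, ← hq, mul_div_cancel_right₀ _ h3]

include F in
lemma rat_empty {N : ℕ} (h1 : ∃ a, (1 : W.H (M.P a).X) ≠ 0) {x : (Empty → M.I) → W.K}
    (hx : x ∈ M.SN N Empty) : ∃ q : ℚ, x = fun _ => (q : W.K) := by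
  obtain ⟨a, ha⟩ := h1
  have h2 := AlgS.as (SN_le F hx) (Y := (M.P a).X) (fun e => e.elim) (L := [])
    List.nodup_nil (fun e => e.elim)
  unfold cl cle at h2
  rw [Fintype.sum_unique, mono_nil] at h2
  obtain ⟨q, hq⟩ := rat_of_as ha h2
  refine ⟨q, ?_⟩
  funext l
  rw [← hq]
  congr 1
  exact Subsingleton.elim _ _

include F in
lemma pos_fin {N n : ℕ} (hH : ∀ c : Fin (n + 1) → Λ,
    HodgeSemi W (M.nst n c).X (M.nst n c).D) {x : (Fin (n + 1) → M.I) → W.K}
    (hx : x ∈ M.SN N (Fin (n + 1))) : ∃ q : ℚ, 0 ≤ q ∧ bfG M.gd x x = q := by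
  have h1 : ∀ c : Fin (n + 1) → Λ, ∃ q : ℚ, 0 ≤ q ∧
      bf W (M.nst n c).X (M.nst n c).D (M.fN n c) (M.cn n c x) (M.cn n c x) = q :=
    fun c => bf_nonneg (M.frN n c) (hH c)
      (AlgS.as (SN_le F hx) _ (List.nodup_finRange _) List.mem_finRange)
  choose q hq0 hq using h1
  refine ⟨∑ c, q c, Finset.sum_nonneg fun c _ => hq0 c, ?_⟩
  rw [bfG_eq, Rat.cast_sum]
  exact Finset.sum_congr rfl fun c _ => hq c

include F in
/-- **Positivity for all tensors.** -/
theorem pos_all {N : ℕ} (hN : 3 ≤ N) (h1 : ∃ a, (1 : W.H (M.P a).X) ≠ 0)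
    (hH : ∀ n < N, ∀ c : Fin (n + 1) → Λ, HodgeSemi W (M.nst n c).X (M.nst n c).D)
    {α : Type} [Fintype α] [DecidableEq α] {x : (α → M.I) → W.K} (hx : x ∈ M.SN N α) :
    ∃ q : ℚ, 0 ≤ q ∧ bfG M.gd x x = q := by
  obtain ⟨q, hq⟩ := rat_empty F h1 ((isSys_SN N).bf hx hx)
  have hq' : bfG M.gd x x = q := congrFun hq Empty.elim
  refine ⟨q, ?_, hq'⟩
  refine fdK M.isGD M.hb (A := fun g : M.Gn N => Fin (g.n + 1)) (v := fun g : M.Gn N => g.x)
    (fun g => g.ev) (fun x hx => rat_empty F h1 hx)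
    (fun g x hx => pos_fin F (hH g.n g.hn) hx) (fun x hx => ?_) α x hx q hq'
  have h2 := (isSys_SN (M := M) N).re (finTwoEquiv.symm) hx
  obtain ⟨q, hq0, hq⟩ := pos_fin F (hH 1 (by omega)) h2
  exact ⟨q, hq0, by rw [← hq, bfG_re]⟩

/-- The coordinates of a class of the net can be chosen with the correct support. -/
lemma Net.sup {N n : ℕ} {c : Fin (n + 1) → Λ} {z : W.H (M.nst n c).X}
    (h : M.Net (fun α _ _ => M.SN N α) (M.sl n c) z) :
    ∃ x ∈ M.SN N (Fin (n + 1)), M.Sup c x ∧ M.cn n c x = z := by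
  classical
  obtain ⟨x, hx, rfl⟩ := h.any (isSys_SN N) (List.nodup_finRange _) List.mem_finRange
  refine ⟨_, wm_mem (S := fun α _ _ => M.SN N α) (isSys_SN N) hx
    (fun q => if ∀ j, (q j).1 = c j then 1 else 0), ?_, ?_⟩
  · intro r hr j
    by_contra h0
    apply hr
    have h1 : ¬ ∀ j, (M.bk (r j)).1 = c j := fun h1 => h0 (h1 j)
    unfold wm
    beta_reduce
    rw [if_neg h1, Rat.cast_zero, zero_mul]
  · rw [cn_eq]
    unfold cl cle
    apply Finset.sum_congr rfl
    intro r _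
    unfold wm
    beta_reduce
    by_cases h1 : ∀ j, (M.bk (r j)).1 = c j
    · rw [if_pos h1, Rat.cast_one, one_mul]
      rfl
    · rw [if_neg h1, Rat.cast_zero, zero_mul, zero_smul]
      push Not at h1
      obtain ⟨j, hj⟩ := h1
      have h2 : mono (fun a => M.ev (M.sl n c a)) (List.finRange (n + 1)) r = 0 := by
        unfold mono
        apply List.prod_eq_zero
        refine List.mem_map.2 ⟨j, List.mem_finRange j, ?_⟩
        exact M.ev_ne (s := M.sl n c j) hj
      rw [h2, smul_zero]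

include F in
/-- The generated classes are given by the tensors of the system. -/
lemma net_of_gen {N : ℕ} (hN : 3 ≤ N) {n : ℕ} {c : Fin (n + 1) → Λ}
    {z : W.H (nest ops n (fun i => M.P (c i))).X} (h : Gen W M.P N n c z) :
    M.Net (fun α _ _ => M.SN N α) (M.sl n c) z := by
  induction h with
  | alg hn hz => exact Net.alg F hn (AS.of hz)
  | add _ _ ih ih' => exact ih.add (isSys_SN N) ih'
  | smul q _ ih => exact ih.smul q
  | mul _ _ ih ih' => exact ih.mul' (F.good hN) ih'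
  | @pull n m c f z _ ih =>
    refine Net.pull (F.good hN) f (fun j => ?_) (ih.map (cmap ops M.P c f))
    unfold pl sl cmap
    rw [tup_prj]
  | push _ ih => exact ih.push (F.good hN)

include F in
lemma as_of_gen {N : ℕ} (hN : 3 ≤ N) {n : ℕ} {c : Fin (n + 1) → Λ}
    {z : W.H (nest ops n (fun i => M.P (c i))).X} (h : Gen W M.P N n c z) :
    AS W (M.nst n c).X z := by
  obtain ⟨x, hx, _, rfl⟩ := (net_of_gen F hN h).sup
  exact AlgS.as (SN_le F hx) _ (List.nodup_finRange _) List.mem_finRange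

include F in
/-- **The form is semipositive on the generated classes.** -/
theorem gen_nonneg {N : ℕ} (hN : 3 ≤ N) (h1 : ∃ a, (1 : W.H (M.P a).X) ≠ 0)
    (hH : ∀ n < N, ∀ c : Fin (n + 1) → Λ, HodgeSemi W (M.nst n c).X (M.nst n c).D)
    {n : ℕ} {c : Fin (n + 1) → Λ}
    {z : W.H (nest ops n (fun i => M.P (c i))).X} (h : Gen W M.P N n c z) :
    ∃ q : ℚ, 0 ≤ q ∧ bf W (M.nst n c).X (M.nst n c).D (M.fN n c) z z = q := by
  obtain ⟨x, hx, hs, rfl⟩ := (net_of_gen F hN h).sup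
  obtain ⟨q, hq0, hq⟩ := pos_all F hN h1 hH hx
  exact ⟨q, hq0, by rw [← hs.bfG]; exact hq⟩

end Fam

end Pool.Agent.H24FG
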