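import Pool.Agent.H24FG.Nst

/-!
# The classes given by the tensors of a system: products, pull-backs and push-forwards
-/

open CategoryTheory AlgebraicGeometry

set_option autoImplicit false
set_option linter.unusedSectionVars false

universe u v w

namespace Pool.Agent.H24FG

open Pool.Agent.H24FD hiding bf bf_add_left bf_add_right
open Pool.Agent.H914 Pool.Agent.H914.VarClass Pool.Agent.H914.VarClass.Obj
  Pool.Agent.H914.WeilCohomology Pool.Agent.H281R3.HT Pool.Agent.W552

variable {k : Type u} [Field k] {𝒱 : VarClass k} {ops : CycleOps 𝒱}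
  {W : WeilCohomology.{u, v} ops} {Λ : Type}

lemma sum_upd {α ι : Type} [Fintype α] [DecidableEq α] [Fintype ι] [DecidableEq ι]
    {T : Type*} [AddCommMonoid T] (a : α) (F : (α → ι) → ι → T) :
    ∑ r : α → ι, ∑ j, F (Function.update r a j) (r a) = ∑ r : α → ι, ∑ t, F r t := by
  rw [← Fintype.sum_prod_type', ← Fintype.sum_prod_type']
  let e : (α → ι) × ι ≃ (α → ι) × ι :=
    { toFun := fun p => (Function.update p.1 a p.2, p.1 a)
      invFun := fun p => (Function.update p.1 a p.2, p.1 a)
      left_inv := by rintro ⟨r, j⟩; simp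
      right_inv := by rintro ⟨r, j⟩; simp }
  exact e.sum_comp (fun p => F p.1 p.2)

namespace Fam

variable (M : Fam W Λ) [DecidableEq Λ] [Fintype Λ]
  (S : ∀ (α : Type) [Fintype α] [DecidableEq α], Submodule ℚ ((α → M.I) → W.K))
  {α β : Type} [Fintype α] [DecidableEq α] [Fintype β] [DecidableEq β] {Y Z : 𝒱.Obj}

/-- The classes given by the tensors of the system `S`. -/
def Net (s : α → M.Slot Y) (z : W.H Y) : Prop :=
  ∃ x ∈ S α, ∃ L : List α, L.Nodup ∧ (∀ a, a ∈ L) ∧ z = M.cl s L x

/-- The tensors needed for the products, the units and the push-forwards. -/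
structure Good : Prop where
  sys : IsSysG M.gd S
  mul : ∀ a : Λ, ∃ m ∈ S (Fin 3), ∀ i j, M.eat a i * M.eat a j =
    ∑ t, (∑ p, ∑ q, M.gd.g i p * M.gd.g j q * m (thr p q t)) • M.eat a t
  one : ∀ a : Λ, ∃ y ∈ S (Fin 1), (1 : W.H (M.P a).X) = ∑ i, y (fun _ => i) • M.eat a i
  tr : ∀ a : Λ, ∃ t ∈ S (Fin 1), ∀ i, ∑ j, M.gd.g i j * t (fun _ => j) =
    W.tr (M.P a).X (M.eat a i)

variable {M S}

lemma wm_mem (hS : IsSysG M.gd S) {x : (α → M.I) → W.K} (hx : x ∈ S α)
    (w : (α → Λ × Bool) → ℚ) : M.wm w x ∈ S α := by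
  have h1 := hS.wt (M.isGD.inv) hx w
  convert h1 using 1
  funext r
  unfold wm
  rw [eq_ratCast]
  rfl

lemma Net.any (hS : IsSysG M.gd S) {s : α → M.Slot Y} {z : W.H Y} (h : M.Net S s z)
    {L : List α} (hL : L.Nodup) (ha : ∀ a, a ∈ L) : ∃ x ∈ S α, z = M.cl s L x := by
  obtain ⟨x, hx, L', h1, h2, rfl⟩ := h
  obtain ⟨w, _, hw⟩ := M.cl_perm h1 hL h2 ha
  exact ⟨_, wm_mem hS hx w, hw Y s x⟩

lemma Net.add (hS : IsSysG M.gd S) {s : α → M.Slot Y} {z z' : W.H Y} (h : M.Net S s z)
    (h' : M.Net S s z') : M.Net S s (z + z') := by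
  obtain ⟨x, hx, L', h1, h2, rfl⟩ := h
  obtain ⟨y, hy, rfl⟩ := h'.any hS h1 h2
  exact ⟨x + y, Submodule.add_mem _ hx hy, L', h1, h2, (cl_add _ _ _ _).symm⟩

lemma Net.smul {s : α → M.Slot Y} {z : W.H Y} (q : ℚ) (h : M.Net S s z) :
    M.Net S s ((q : W.K) • z) := by
  obtain ⟨x, hx, L', h1, h2, rfl⟩ := h
  refine ⟨q • x, Submodule.smul_mem _ _ hx, L', h1, h2, ?_⟩
  have e1 : q • x = (q : W.K) • x := by
    funext r
    rw [Pi.smul_apply, Pi.smul_apply, Rat.smul_def, smul_eq_mul]
  rw [e1, cl_smul]

lemma Net.map (g : Z ⟶ Y) {s : α → M.Slot Y} {z : W.H Y} (h : M.Net S s z) :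
    M.Net S (fun a => M.pl g (s a)) (W.map g z) := by
  obtain ⟨x, hx, L', h1, h2, rfl⟩ := h
  exact ⟨x, hx, L', h1, h2, map_cl g s L' x⟩

lemma Net.re (hS : IsSysG M.gd S) (e : α ≃ β) {s : β → M.Slot Y} {z : W.H Y}
    (h : M.Net S (fun a => s (e a)) z) : M.Net S s z := by
  obtain ⟨x, hx, L, h1, h2, rfl⟩ := h
  refine ⟨_, hS.re e hx, L.map e, h1.map e.injective,
    fun b => List.mem_map.2 ⟨e.symm b, h2 _, by simp⟩, ?_⟩
  unfold cl
  rw [cle_re]

lemma Net.mul (hS : IsSysG M.gd S) {s : α → M.Slot Y} {t : β → M.Slot Y} {z z' : W.H Y}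
    (h : M.Net S s z) (h' : M.Net S t z') : M.Net S (Sum.elim s t) (z * z') := by
  obtain ⟨x, hx, L, h1, h2, rfl⟩ := h
  obtain ⟨y, hy, L', h1', h2', rfl⟩ := h'
  refine ⟨_, hS.ten hx hy, L.map Sum.inl ++ L'.map Sum.inr, ?_, ?_, ?_⟩
  · rw [List.nodup_append]
    refine ⟨h1.map Sum.inl_injective, h1'.map Sum.inr_injective, ?_⟩
    intro c hc d hd hcd
    obtain ⟨a, _, rfl⟩ := List.mem_map.1 hc
    obtain ⟨b, _, rfl⟩ := List.mem_map.1 hd
    exact Sum.inl_ne_inr hcd
  · rintro (a | b)
    · exact List.mem_append_left _ (List.mem_map_of_mem (h2 a))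
    · exact List.mem_append_right _ (List.mem_map_of_mem (h2' b))
  · unfold cl
    rw [cle_ten]
    rfl

/-- Two slots with the same morphism are merged. -/
lemma Net.merge (hG : M.Good S) {s : Option α → M.Slot Y} {z : W.H Y} (h : M.Net S s z)
    (a : α) (ha : s none = s (some a)) : M.Net S (fun b => s (some b)) z := by
  classical
  set L₀ : List α := (Finset.univ.erase a).toList with hL₀
  have h1 : L₀.Nodup := Finset.nodup_toList _
  have h1' : ∀ b, b ∈ L₀ ↔ b ≠ a := fun b => by simp [hL₀]
  have h2 : (L₀.map some ++ [none, some a]).Nodup := by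
    rw [List.nodup_append]
    refine ⟨h1.map (Option.some_injective α), by simp, ?_⟩
    intro c hc d hd hcd
    obtain ⟨b, hb, rfl⟩ := List.mem_map.1 hc
    have h3 : d = none ∨ d = some a := by simpa using hd
    rcases h3 with rfl | rfl
    · cases hcd
    · exact (h1' b).1 hb (Option.some_injective α hcd)
  have h2' : ∀ b, b ∈ L₀.map some ++ [none, some a] := by
    intro o
    cases o with
    | none => simp
    | some b =>
      by_cases hb : b = a
      · subst hb
        simp
      · exact List.mem_append_left _ (List.mem_map_of_mem ((h1' b).2 hb))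
  obtain ⟨x, hx, rfl⟩ := h.any hG.sys h2 h2'
  obtain ⟨m, hm, hm'⟩ := hG.mul (s (some a)).1
  set y : (α → M.I) → W.K := fun r : α → M.I => ∑ i, ∑ j, (∑ p, ∑ q, M.gd.g i p * M.gd.g j q *
    m (thr p q (r a))) * x (fun o => o.elim i (Function.update r a j)) with hy
  have hyS : y ∈ S α := hG.sys.merge hx a hm
  refine ⟨y, hyS, L₀ ++ [a], ?_, ?_, ?_⟩
  · rw [List.nodup_append]
    refine ⟨h1, List.nodup_singleton a, ?_⟩
    intro c hc d hd hcd
    rw [List.mem_singleton] at hd
    exact (h1' c).1 hc (hcd.trans hd)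
  · intro b
    by_cases hb : b = a
    · subst hb
      simp
    · exact List.mem_append_left _ ((h1' b).2 hb)
  · have hev : ∀ i j, M.ev (s (some a)) i * M.ev (s (some a)) j =
        ∑ t, (∑ p, ∑ q, M.gd.g i p * M.gd.g j q * m (thr p q t)) • M.ev (s (some a)) t := by
      intro i j
      change W.map _ _ * W.map _ _ = ∑ t, _ • W.map _ _
      rw [← map_mul, hm', map_sum]
      simp only [map_smul]
    unfold cl cle
    rw [sumM_option]
    have e1 : ∀ (r : α → M.I) (i : M.I), x (fun o => o.elim i r) •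
        mono (fun o => M.ev (s o)) (L₀.map some ++ [none, some a]) (fun o => o.elim i r) =
        ∑ t, ((∑ p, ∑ q, M.gd.g i p * M.gd.g (r a) q * m (thr p q t)) *
          x (fun o => o.elim i r)) • (mono (fun b => M.ev (s (some b))) L₀ r *
            M.ev (s (some a)) t) := by
      intro r i
      rw [mono_append, mono_map, mono_cons, mono_cons, mono_nil, mul_one, ha]
      change _ • (mono (fun b => M.ev (s (some b))) L₀ r * (M.ev (s (some a)) i *
        M.ev (s (some a)) (r a))) = _
      rw [hev, Finset.mul_sum, Finset.smul_sum]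
      apply Finset.sum_congr rfl
      intro t _
      rw [mul_smul_comm, smul_smul, mul_comm (x _)]
    simp only [e1]
    have e2 : ∀ r : α → M.I, y r • mono (fun b => M.ev (s (some b))) (L₀ ++ [a]) r =
        ∑ j, ∑ i, ((∑ p, ∑ q, M.gd.g i p * M.gd.g j q * m (thr p q (r a))) *
          x (fun o => o.elim i (Function.update r a j))) •
            (mono (fun b => M.ev (s (some b))) L₀ (Function.update r a j) *
              M.ev (s (some a)) (r a)) := by
      intro r
      rw [mono_append, mono_cons, mono_nil, mul_one, hy]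
      beta_reduce
      rw [Finset.sum_comm, Finset.sum_smul]
      apply Finset.sum_congr rfl
      intro j _
      rw [Finset.sum_smul]
      apply Finset.sum_congr rfl
      intro i _
      congr 2
      apply mono_congr
      intro b hb
      rw [Function.update_of_ne ((h1' b).1 hb)]
    simp only [e2]
    have e3 := sum_upd a (fun (r : α → M.I) (t : M.I) =>
      ∑ i, ((∑ p, ∑ q, M.gd.g i p * M.gd.g (r a) q * m (thr p q t)) *
          x (fun o => o.elim i r)) • (mono (fun b => M.ev (s (some b))) L₀ r *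
            M.ev (s (some a)) t))
    simp only [Function.update_self] at e3
    rw [e3]
    apply Finset.sum_congr rfl
    intro r _
    rw [Finset.sum_comm]

/-- The slots `s` with the same morphisms as some of the slots `t` are absorbed. -/
lemma Net.absorb (hG : M.Good S) : ∀ (m : ℕ) (φ : Fin m → β) (t : β → M.Slot Y) {z : W.H Y},
    M.Net S (Sum.elim (fun j => t (φ j)) t) z → M.Net S t z
  | 0, φ, t, z, h => by
    let e : Fin 0 ⊕ β ≃ β :=
      { toFun := Sum.elim (fun j => j.elim0) id
        invFun := Sum.inr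
        left_inv := by rintro (j | b); exacts [j.elim0, rfl]
        right_inv := fun _ => rfl }
    refine Net.re hG.sys e ?_
    convert h using 1
    funext c
    rcases c with j | b
    · exact j.elim0
    · rfl
  | m + 1, φ, t, z, h => by
    let e : Fin (m + 1) ⊕ β ≃ Option (Fin m ⊕ β) :=
      { toFun := Sum.elim (Fin.cases none (fun j => some (Sum.inl j))) (fun b => some (Sum.inr b))
        invFun := fun o => o.elim (Sum.inl 0) (Sum.elim (fun j => Sum.inl j.succ) Sum.inr)
        left_inv := by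
          rintro (j | b)
          · refine Fin.cases rfl (fun i => rfl) j
          · rfl
        right_inv := by rintro (_ | (j | b)) <;> rfl }
    have h1 : M.Net S (fun o : Option (Fin m ⊕ β) => o.elim (t (φ 0))
        (Sum.elim (fun j => t (φ j.succ)) t)) z := by
      refine Net.re hG.sys e ?_
      convert h using 1
      funext c
      rcases c with j | b
      · refine Fin.cases rfl (fun i => rfl) j
      · rfl
    have h2 := h1.merge hG (Sum.inr (φ 0)) rfl
    exact Net.absorb hG m (fun j => φ j.succ) t h2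

lemma Net.one (hG : M.Good S) : ∀ (m : ℕ) (t : Fin m → M.Slot Y), M.Net S t (1 : W.H Y)
  | 0, t => by
    let e : Empty ≃ Fin 0 :=
      { toFun := fun a => a.elim
        invFun := fun j => j.elim0
        left_inv := fun a => a.elim
        right_inv := fun j => j.elim0 }
    refine Net.re hG.sys e ⟨_, hG.sys.one, [], List.nodup_nil, fun a => a.elim, ?_⟩
    unfold cl cle
    rw [Fintype.sum_unique, mono_nil, one_smul]
  | m + 1, t => by
    obtain ⟨y, hy, hy'⟩ := hG.one (t (Fin.natAdd m 0)).1
    have h1 : M.Net S (fun j : Fin 1 => t (Fin.natAdd m j)) (1 : W.H Y) := by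
      refine ⟨y, hy, [0], List.nodup_singleton 0, fun j => ?_, ?_⟩
      · rw [Fin.eq_zero j]
        exact List.mem_singleton_self 0
      · unfold cl cle
        have e1 : ∀ r : Fin 1 → M.I, y r • mono (fun a => M.ev (t (Fin.natAdd m a))) [0] r =
            y r • M.ev (t (Fin.natAdd m 0)) (r 0) := by
          intro r
          rw [mono_cons, mono_nil, mul_one]
        rw [Finset.sum_congr rfl (fun r _ => e1 r)]
        rw [← (Equiv.funUnique (Fin 1) M.I).symm.sum_comp]
        have e2 : (1 : W.H Y) = ∑ i, y (fun _ => i) • M.ev (t (Fin.natAdd m 0)) i := by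
          have h3 := congrArg (W.map (t (Fin.natAdd m 0)).2) hy'
          rw [map_one, map_sum] at h3
          rw [h3]
          apply Finset.sum_congr rfl
          intro i _
          rw [map_smul]
          rfl
        exact e2
    have h2 := (Net.one hG m (fun j => t (Fin.castAdd 1 j))).mul hG.sys h1
    rw [mul_one] at h2
    refine Net.re hG.sys finSumFinEquiv ?_
    convert h2 using 1
    funext c
    rcases c with j | b
    · rw [finSumFinEquiv_apply_left]
      rfl
    · rw [finSumFinEquiv_apply_right]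
      rfl

/-- Slots are added and merged. -/
lemma Net.pull (hG : M.Good S) {m n : ℕ} {s : Fin m → M.Slot Y} {t : Fin n → M.Slot Y}
    (φ : Fin m → Fin n) (hs : ∀ j, s j = t (φ j)) {z : W.H Y} (h : M.Net S s z) :
    M.Net S t z := by
  have h1 := h.mul hG.sys (Net.one hG n t)
  rw [mul_one] at h1
  refine Net.absorb hG m φ t ?_
  convert h1 using 1
  funext c
  rcases c with j | b
  · exact (hs j).symm
  · rfl

lemma Net.mul' (hG : M.Good S) {n : ℕ} {s : Fin n → M.Slot Y} {z z' : W.H Y}
    (h : M.Net S s z) (h' : M.Net S s z') : M.Net S s (z * z') :=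
  Net.absorb hG n id s (h.mul hG.sys h')

lemma sum_cons {ι : Type} [Fintype ι] [DecidableEq ι] {T : Type*} [AddCommMonoid T] {n : ℕ}
    (F : (Fin (n + 1) → ι) → T) : ∑ r, F r = ∑ r : Fin n → ι, ∑ i, F (Fin.cons i r) := by
  rw [sumM_re (finSuccEquiv n).symm, sumM_option]
  apply Finset.sum_congr rfl
  intro r _
  apply Finset.sum_congr rfl
  intro i _
  congr 1
  funext j
  refine Fin.cases ?_ (fun l => ?_) j
  · simp
  · simp

/-- The push-forward along the projection which forgets the first factor. -/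
lemma Net.push (hG : M.Good S) {n : ℕ} {c : Fin (n + 2) → Λ} {z : W.H (M.nst (n + 1) c).X}
    (h : M.Net S (M.sl (n + 1) c) z) : M.Net S (M.sl n (fun i => c i.succ))
      (W.push (snd (M.P (c 0)).X (M.nst n (fun i => c i.succ)).X) z) := by
  obtain ⟨x, hx, rfl⟩ := h.any hG.sys (List.nodup_finRange _) List.mem_finRange
  obtain ⟨t, ht, ht'⟩ := hG.tr (c 0)
  have h1 := hG.sys.psh (hG.sys.re (finSuccEquiv (n + 1)) hx) ht
  refine ⟨_, h1, List.finRange (n + 1), List.nodup_finRange _, List.mem_finRange, ?_⟩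
  have e1 : W.push (snd (M.P (c 0)).X (M.nst n (fun i => c i.succ)).X)
      (M.cl (M.sl (n + 1) c) (List.finRange (n + 1 + 1)) x) =
      W.push (snd (M.P (c 0)).X (M.nst n (fun i => c i.succ)).X)
      (∑ r : Fin (n + 2) → M.I, x r • (W.map (fst (M.P (c 0)).X (M.nst n (fun i => c i.succ)).X)
        (M.eat (c 0) (r 0)) * W.map (snd (M.P (c 0)).X (M.nst n (fun i => c i.succ)).X)
          (M.pmn n (fun i => c i.succ) (fun i => r i.succ)))) := by
    refine congrArg (W.push (snd (M.P (c 0)).X (M.nst n (fun i => c i.succ)).X)) ?_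
    unfold cl cle
    apply Finset.sum_congr rfl
    intro r _
    exact congrArg (fun z => x r • z) (M.pmn_succ n c r)
  refine e1.trans ?_
  rw [map_sum]
  simp only [map_smul, W.push_snd]
  rw [sum_cons]
  unfold cl cle
  apply Finset.sum_congr rfl
  intro r _
  rw [Finset.sum_smul]
  apply Finset.sum_congr rfl
  intro i _
  rw [ht', smul_smul, mul_comm]
  have e2 : (fun j => (fun o : Option (Fin (n + 1)) => o.elim i r) (finSuccEquiv (n + 1) j)) =
      (Fin.cons i r : Fin (n + 2) → M.I) := by
    funext j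
    refine Fin.cases ?_ (fun l => ?_) j
    · simp
    · simp
  unfold H24FD.re
  rw [e2]
  simp only [Fin.cons_zero, Fin.cons_succ]
  rfl

end Fam

end Pool.Agent.H24FG
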