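import Pool.Agent.H24FG.AlgS
import Pool.Agent.W552.Main
import Pool.Agent.H24FG.Defs

/-!
# Products of members of a family in coordinates
-/

open CategoryTheory AlgebraicGeometry

set_option autoImplicit false
set_option linter.unusedSectionVars false

universe u v w

namespace Pool.Agent.H24FG

open Pool.Agent.H24FD hiding bf bf_add_left bf_add_right
open Pool.Agent.H914 Pool.Agent.H914.VarClass Pool.Agent.H914.VarClass.Obj
  Pool.Agent.H914.WeilCohomology Pool.Agent.H281R3.HT Pool.Agent.W552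

variable {k : Type u} [Field k] {𝒱 : VarClass k} {ops : CycleOps 𝒱}
  {W : WeilCohomology.{u, v} ops} {Λ : Type}

lemma tup_prj : ∀ (n : ℕ) (P : Fin (n + 1) → Polarized 𝒱) {Y : 𝒱.Obj}
    (g : ∀ j, Y ⟶ (P j).X) (j : Fin (n + 1)), tup ops n P g ≫ prj ops n P j = g j
  | 0, P, Y, g, j => by
    obtain rfl : j = 0 := Fin.eq_zero j
    change g 0 ≫ 𝟙 _ = g 0
    exact Category.comp_id _
  | n + 1, P, Y, g, j => by
    refine Fin.cases ?_ (fun i => ?_) j
    · exact lift_fst _ _
    · change Obj.lift (g 0) (tup ops n (fun i => P i.succ) (fun i => g i.succ)) ≫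
        (snd _ _ ≫ prj ops n (fun i => P i.succ) i) = g i.succ
      rw [lift_snd_assoc]
      exact tup_prj n (fun i => P i.succ) (fun i => g i.succ) i

namespace Fam

variable (M : Fam W Λ)

/-- The product of members. -/
noncomputable abbrev nst (n : ℕ) (c : Fin (n + 1) → Λ) : Polarized 𝒱 :=
  nest ops n (fun j => M.P (c j))

/-- The slots of the product. -/
noncomputable def sl (n : ℕ) (c : Fin (n + 1) → Λ) (j : Fin (n + 1)) : M.Slot (M.nst n c).X :=
  ⟨c j, prj ops n (fun j => M.P (c j)) j⟩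

/-- The lowering operator of the product. -/
noncomputable def fN : (n : ℕ) → (c : Fin (n + 1) → Λ) → Module.End W.K (W.H (M.nst n c).X)
  | 0, c => M.f (c 0)
  | n + 1, c => extSum W (M.f (c 0)) (fN n (fun i => c i.succ))

lemma frN : ∀ (n : ℕ) (c : Fin (n + 1) → Λ), Fr W (M.nst n c).X (M.nst n c).D (M.fN n c)
  | 0, c => M.fr (c 0)
  | n + 1, c => (M.fr (c 0)).prod (frN n (fun i => c i.succ))

variable [DecidableEq Λ]

/-- The products of basis vectors. -/
noncomputable def pmn (n : ℕ) (c : Fin (n + 1) → Λ) (r : Fin (n + 1) → M.I) :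
    W.H (M.nst n c).X :=
  mono (fun j => M.ev (M.sl n c j)) (List.finRange (n + 1)) r

lemma pmn_zero (c : Fin 1 → Λ) (r : Fin 1 → M.I) : M.pmn 0 c r = M.eat (c 0) (r 0) := by
  unfold pmn
  rw [List.finRange_succ, List.finRange_zero, List.map_nil, mono_cons, mono_nil, mul_one]
  change W.map (𝟙 _) (M.eat (c 0) (r 0)) = _
  rw [W.map_id]

lemma pmn_succ (n : ℕ) (c : Fin (n + 2) → Λ) (r : Fin (n + 2) → M.I) :
    M.pmn (n + 1) c r = W.map (fst _ _) (M.eat (c 0) (r 0)) *
      W.map (snd _ _) (M.pmn n (fun i => c i.succ) (fun i => r i.succ)) := by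
  unfold pmn
  rw [List.finRange_succ, mono_cons, mono_map]
  congr 1
  rw [map_mono]
  unfold mono
  congr 1
  apply List.map_congr_left
  intro b _
  exact W.map_comp _ _ _

/-- The form on the products of basis vectors. -/
lemma bf_pmn : ∀ (n : ℕ) (c : Fin (n + 1) → Λ) (r r' : Fin (n + 1) → M.I),
    bf W (M.nst n c).X (M.nst n c).D (M.fN n c) (M.pmn n c r) (M.pmn n c r') =
      ∏ j, bf W (M.P (c j)).X (M.P (c j)).D (M.f (c j)) (M.eat (c j) (r j))
        (M.eat (c j) (r' j))
  | 0, c, r, r' => by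
    rw [pmn_zero, pmn_zero, Fin.prod_univ_succ, Fin.prod_univ_zero, mul_one]
    rfl
  | n + 1, c, r, r' => by
    rw [pmn_succ, pmn_succ, Fin.prod_univ_succ, ← bf_pmn n (fun i => c i.succ)]
    exact (M.fr (c 0)).bf_ext (M.frN n (fun i => c i.succ)) _ _ _ _

variable [Fintype Λ]

/-- The class on the product with the given coordinates. -/
noncomputable def cn (n : ℕ) (c : Fin (n + 1) → Λ) (x : (Fin (n + 1) → M.I) → W.K) :
    W.H (M.nst n c).X := M.cl (M.sl n c) (List.finRange (n + 1)) x

lemma cn_eq (n : ℕ) (c : Fin (n + 1) → Λ) (x : (Fin (n + 1) → M.I) → W.K) :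
    M.cn n c x = ∑ r, x r • M.pmn n c r := rfl

lemma bf_cn (n : ℕ) (c : Fin (n + 1) → Λ) (x y : (Fin (n + 1) → M.I) → W.K) :
    bf W (M.nst n c).X (M.nst n c).D (M.fN n c) (M.cn n c x) (M.cn n c y) =
      ∑ r, ∑ r', (∏ j, bf W (M.P (c j)).X (M.P (c j)).D (M.f (c j)) (M.eat (c j) (r j))
        (M.eat (c j) (r' j))) * (x r * y r') := by
  rw [cn_eq, cn_eq, map_sum (bf W (M.nst n c).X (M.nst n c).D (M.fN n c)), LinearMap.sum_apply]
  apply Finset.sum_congr rfl
  intro r _
  rw [map_sum]
  apply Finset.sum_congr rfl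
  intro r' _
  rw [map_smul, map_smul, LinearMap.smul_apply, bf_pmn, smul_eq_mul, smul_eq_mul]
  ring

/-- The form on the tensors as a sum over the products. -/
lemma bfG_eq (n : ℕ) (x y : (Fin (n + 1) → M.I) → W.K) : bfG M.gd x y =
    ∑ c : Fin (n + 1) → Λ, bf W (M.nst n c).X (M.nst n c).D (M.fN n c) (M.cn n c x)
      (M.cn n c y) := by
  simp only [bf_cn]
  rw [Finset.sum_comm]
  unfold bfG
  apply Finset.sum_congr rfl
  intro r _
  rw [Finset.sum_comm]
  apply Finset.sum_congr rfl
  intro r' _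
  rw [← Finset.sum_mul]
  congr 1
  simp only [g_apply]
  rw [Finset.prod_univ_sum, Fintype.piFinset_univ]

/-- The tensor is supported on the products `c`. -/
def Sup {n : ℕ} (c : Fin (n + 1) → Λ) (x : (Fin (n + 1) → M.I) → W.K) : Prop :=
  ∀ r, x r ≠ 0 → ∀ j, (r j).1 = c j

variable {M}

lemma Sup.cn_ne {n : ℕ} {c c' : Fin (n + 1) → Λ} {x : (Fin (n + 1) → M.I) → W.K}
    (h : M.Sup c x) (hc : c' ≠ c) : M.cn n c' x = 0 := by
  rw [cn_eq]
  apply Finset.sum_eq_zero
  intro r _
  by_cases h1 : x r = 0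
  · rw [h1, zero_smul]
  · obtain ⟨j, hj⟩ := Function.ne_iff.1 hc
    have h2 : M.pmn n c' r = 0 := by
      unfold pmn mono
      apply List.prod_eq_zero
      refine List.mem_map.2 ⟨j, List.mem_finRange j, ?_⟩
      exact M.ev_ne (s := M.sl n c' j) (fun h3 => hj (h3.symm.trans (h r h1 j)))
    rw [h2, smul_zero]

lemma Sup.bfG {n : ℕ} {c : Fin (n + 1) → Λ} {x : (Fin (n + 1) → M.I) → W.K}
    (h : M.Sup c x) (y : (Fin (n + 1) → M.I) → W.K) : bfG M.gd x y =
      bf W (M.nst n c).X (M.nst n c).D (M.fN n c) (M.cn n c x) (M.cn n c y) := by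
  rw [bfG_eq, Finset.sum_eq_single c]
  · intro c' _ hc
    rw [h.cn_ne hc, map_zero, LinearMap.zero_apply]
  · intro h0
    exact absurd (Finset.mem_univ _) h0

/-- The projector to a parity. -/
noncomputable def pp (X : 𝒱.Obj) (o : Bool) : Module.End W.K (W.H X) :=
  ((1 / 2 : ℚ) : W.K) • (1 + ((if o then (-1 : ℚ) else 1 : ℚ) : W.K) • par (W.isInternal X))

lemma pp_apply {X : 𝒱.Obj} (o : Bool) {i : ℕ} {x : W.H X} (hx : x ∈ W.gr X i) :
    pp (W := W) X o x = if decide (Odd i) = o then x else 0 := by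
  unfold pp
  rw [LinearMap.smul_apply, LinearMap.add_apply, LinearMap.smul_apply, Module.End.one_apply, par,
    scal_apply _ _ hx, smul_smul]
  have h2 : ((1 / 2 : ℚ) : W.K) • (x + x) = x := by
    rw [← two_smul W.K x, smul_smul]
    norm_num
  by_cases hi : Odd i
  · rw [hi.neg_one_pow]
    cases o
    · simp [hi]
    · simp only [hi, decide_true, if_true]
      rw [Rat.cast_neg, Rat.cast_one, neg_mul_neg, one_mul, one_smul, h2]
  · rw [(Nat.not_odd_iff_even.1 hi).neg_one_pow]
    cases o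
    · simp only [hi, decide_false, if_true, Bool.false_eq_true, if_false]
      rw [Rat.cast_one, mul_one, one_smul, h2]
    · simp [hi]

lemma pp_aop (M : Fam W Λ) (hp : ∀ a, AOp W (M.P a).X (M.P a).X (par (W.isInternal (M.P a).X)))
    (a : Λ) (o : Bool) : AOp W (M.P a).X (M.P a).X (pp (M.P a).X o) :=
  AOp.smul _ (AOp.one.add (AOp.smul _ (hp a)))

variable (M) in
/-- The projector to the given parities. -/
noncomputable def prN : (n : ℕ) → (c : Fin (n + 1) → Λ) → (Fin (n + 1) → Bool) →
    Module.End W.K (W.H (M.nst n c).X)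
  | 0, c, o => pp (M.P (c 0)).X (o 0)
  | n + 1, c, o => extOp W (pp (M.P (c 0)).X (o 0)) (prN n (fun i => c i.succ)
      (fun i => o i.succ))

lemma prN_aop (hp : ∀ a, AOp W (M.P a).X (M.P a).X (par (W.isInternal (M.P a).X))) :
    ∀ (n : ℕ) (c : Fin (n + 1) → Λ) (o : Fin (n + 1) → Bool),
      AOp W (M.nst n c).X (M.nst n c).X (M.prN n c o)
  | 0, c, o => pp_aop M hp _ _
  | n + 1, c, o => (pp_aop M hp _ _).ext (prN_aop hp n (fun i => c i.succ) (fun i => o i.succ))

lemma prN_pmn : ∀ (n : ℕ) (c : Fin (n + 1) → Λ) (o : Fin (n + 1) → Bool)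
    (r : Fin (n + 1) → M.I), M.prN n c o (M.pmn n c r) =
      if (fun j => M.od (r j)) = o then M.pmn n c r else 0
  | 0, c, o, r => by
    rw [pmn_zero]
    change pp (M.P (c 0)).X (o 0) (M.eat (c 0) (r 0)) = _
    rw [pp_apply _ (M.eat_mem _ _)]
    change (if M.od (r 0) = o 0 then _ else _) = _
    by_cases h : M.od (r 0) = o 0
    · have hc : (fun j => M.od (r j)) = o := by
        funext j
        obtain rfl : j = 0 := Fin.eq_zero j
        exact h
      rw [if_pos h]
      exact (if_pos hc).symm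
    · have hc : ¬ (fun j => M.od (r j)) = o := fun h1 => h (congrFun h1 0)
      rw [if_neg h]
      exact (if_neg hc).symm
  | n + 1, c, o, r => by
    rw [pmn_succ]
    change extOp W (pp (M.P (c 0)).X (o 0)) (M.prN n (fun i => c i.succ) (fun i => o i.succ))
      (W.map (fst _ _) (M.eat (c 0) (r 0)) * W.map (snd _ _) (M.pmn n (fun i => c i.succ)
        (fun i => r i.succ))) = _
    rw [extOp_tmul, prN_pmn n, pp_apply _ (M.eat_mem _ _)]
    change W.map _ (if M.od (r 0) = o 0 then _ else _) * _ = _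
    by_cases h : M.od (r 0) = o 0
    · by_cases h' : (fun j : Fin (n + 1) => M.od (r j.succ)) = fun j => o j.succ
      · have hc : (fun j => M.od (r j)) = o := by
          funext j
          refine Fin.cases h (fun i => congrFun h' i) j
        rw [if_pos h, if_pos h']
        exact (if_pos hc).symm
      · have hc : ¬ (fun j => M.od (r j)) = o := fun h1 => h' (funext fun i => congrFun h1 i.succ)
        rw [if_neg h', map_zero, mul_zero]
        exact (if_neg hc).symm
    · have hc : ¬ (fun j => M.od (r j)) = o := fun h1 => h (congrFun h1 0)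
      rw [if_neg h, map_zero, zero_mul]
      exact (if_neg hc).symm

/-- The multiplication of the coordinates by a function of the blocks. -/
lemma Sup.cn_wm (hp : ∀ a, AOp W (M.P a).X (M.P a).X (par (W.isInternal (M.P a).X))) {n : ℕ}
    {c : Fin (n + 1) → Λ} {x : (Fin (n + 1) → M.I) → W.K} (h : M.Sup c x)
    (hx : AS W (M.nst n c).X (M.cn n c x)) (w : (Fin (n + 1) → Λ × Bool) → ℚ) :
    AS W (M.nst n c).X (M.cn n c (M.wm w x)) := by
  have e1 : M.cn n c (M.wm w x) = ∑ o : Fin (n + 1) → Bool, (w (fun j => (c j, o j)) : W.K) •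
      M.prN n c o (M.cn n c x) := by
    simp only [cn_eq, map_sum, Finset.smul_sum]
    rw [Finset.sum_comm]
    apply Finset.sum_congr rfl
    intro r _
    rw [Finset.sum_eq_single (fun j => M.od (r j))]
    · rw [map_smul, prN_pmn, if_pos rfl, smul_smul]
      congr 1
      unfold wm
      by_cases h0 : x r = 0
      · rw [h0, mul_zero, mul_zero]
      · congr 3
        funext j
        exact Prod.ext (h r h0 j) rfl
    · intro o _ ho
      rw [map_smul, prN_pmn, if_neg (Ne.symm ho), smul_zero, smul_zero]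
    · intro h0
      exact absurd (Finset.mem_univ _) h0
  rw [e1]
  exact AS.ratSub.sum _ fun o _ => ((prN_aop hp n c o).apply hx).smul _

/-- A tensor which is supported on one product belongs to the system if it gives an algebraic
class on this product. -/
lemma Sup.mem_AlgS (hp : ∀ a, AOp W (M.P a).X (M.P a).X (par (W.isInternal (M.P a).X))) {n : ℕ}
    {c : Fin (n + 1) → Λ} {x : (Fin (n + 1) → M.I) → W.K} (h : M.Sup c x)
    (hx : AS W (M.nst n c).X (M.cn n c x)) : x ∈ M.AlgS (Fin (n + 1)) := by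
  refine mem_AlgS_of (List.finRange (n + 1)) (List.nodup_finRange _) (List.mem_finRange)
    fun w Y s => ?_
  by_cases hs : ∀ j, (s j).1 = c j
  · obtain ⟨u, hu⟩ : ∃ u : ∀ j, Y ⟶ (M.P (c j)).X, s = fun j => ⟨c j, u j⟩ := by
      have h1 : ∀ j, ∃ u : Y ⟶ (M.P (c j)).X, s j = ⟨c j, u⟩ := by
        intro j
        rw [← hs j]
        exact ⟨(s j).2, rfl⟩
      choose u hu using h1
      exact ⟨u, funext hu⟩
    have h2 : s = fun j => M.pl (tup ops n _ u) (M.sl n c j) := by
      rw [hu]
      funext j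
      unfold pl sl
      rw [tup_prj]
    rw [h2, ← map_cl]
    exact (h.cn_wm hp hx w).map _
  · push Not at hs
    obtain ⟨j, hj⟩ := hs
    have h1 : M.cl s (List.finRange (n + 1)) (M.wm w x) = 0 := by
      unfold cl cle
      apply Finset.sum_eq_zero
      intro r _
      by_cases h0 : x r = 0
      · rw [wm, h0, mul_zero, zero_smul]
      · have h3 : mono (fun a => M.ev (s a)) (List.finRange (n + 1)) r = 0 := by
          unfold mono
          apply List.prod_eq_zero
          refine List.mem_map.2 ⟨j, List.mem_finRange j, ?_⟩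
          exact M.ev_ne (fun h3 => hj (h3.symm.trans (h r h0 j)))
        rw [h3, smul_zero]
    rw [h1]
    exact AS.zero

end Fam

end Pool.Agent.H24FG
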