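import Pool.Agent.H24FG.AP0
import Pool.Agent.H24FG.GoodN

/-!
# Semipositivity of the form on the algebraic classes, and the existence of families with bases
-/

open CategoryTheory AlgebraicGeometry

set_option autoImplicit false
set_option linter.unusedSectionVars false

universe u v w

namespace Pool.Agent.H24FG

open Pool.Agent.H24FD hiding bf bf_add_left bf_add_right
open Pool.Agent.H914 Pool.Agent.H914.VarClass Pool.Agent.H914.VarClass.Obj
  Pool.Agent.H914.WeilCohomology Pool.Agent.H281R3.HT Pool.Agent.W552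

variable {k : Type u} [Field k] {𝒱 : VarClass k} {ops : CycleOps 𝒱}
  {W : WeilCohomology.{u, v} ops} {Λ : Type}

section One

variable {X : 𝒱.Obj} {D : X.Cycles} {f : Module.End W.K (W.H X)}

lemma algP0 (hD : X.IsCyc 1 D) (hA : LefschetzA W X D) (hH : HodgeSemi W X D) :
    AlgP0 (W.gr X) X.dim (LinearMap.mulLeft W.K (W.cl X D)) (bil W X) (algClasses W X) where
  sub := by
    rintro l _ ⟨z, hz, rfl⟩
    exact W.cl_mem hz
  zero l := ⟨0, SmVar.IsCyc.zero _ _, map_zero _⟩
  add := by
    rintro l _ ⟨z, hz, rfl⟩ _ ⟨z', hz', rfl⟩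
    exact ⟨z + z', hz.add hz', map_add _ _ _⟩
  smul := by
    rintro l q _ ⟨z, hz, rfl⟩
    exact ⟨q • z, hz.smul q, W.cl_smul q z⟩
  map_L := by
    rintro l _ ⟨z, hz, rfl⟩
    refine ⟨ops.mul D z, ?_, by rw [W.cl_mul]; rfl⟩
    rw [add_comm]
    exact ops.mul_mem hD hz
  rat := by
    rintro l l' _ ⟨z, hz, rfl⟩ _ ⟨z', hz', rfl⟩
    by_cases h : l + l' = X.dim
    · refine ⟨X.V.degCycle (ops.mul z z'), ?_⟩
      rw [bil_apply, ← W.cl_mul, W.tr_cl (h ▸ ops.mul_mem hz hz')]
    · refine ⟨0, ?_⟩
      rw [bil_apply, W.tr_eq_zero (W.mul_mem (W.cl_mem hz) (W.cl_mem hz')) (by omega)]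
      simp
  hl := by
    rintro l hl _ ⟨z, hz, rfl⟩
    obtain ⟨z', hz', h⟩ := hA l hl z hz
    exact ⟨W.cl X z', ⟨z', hz', rfl⟩, by rw [← h, cl_divPow]⟩
  pos := by
    rintro l hl _ ⟨z, hz, rfl⟩ hp
    refine ⟨_, ?_, hH l hl z hz (by rw [cl_divPow]; exact hp)⟩
    rw [bil_apply, ← cl_divPow, ← W.cl_mul, W.tr_cl]
    have := ops.mul_mem hz (divPow_mem (ops := ops) hD (X.dim - 2 * l) hz)
    rwa [show l + (l + (X.dim - 2 * l)) = X.dim by omega] at this
  self a b := by
    rw [bil_apply, bil_apply, LinearMap.mulLeft_apply, LinearMap.mulLeft_apply,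
      W.even_comm (p := 1) (W.cl_mem hD) a, mul_assoc]
  deg i j a ha b hb hij := W.tr_eq_zero (W.mul_mem ha hb) hij
  symm l a ha b := by
    rw [bil_apply, bil_apply, W.even_comm ha]

/-- **Semipositivity of the form on the algebraic classes.** -/
theorem bf_nonneg (F : Fr W X D f) (hH : HodgeSemi W X D) {x : W.H X} (hx : AS W X x) :
    ∃ q : ℚ, 0 ≤ q ∧ bf W X D f x x = q := by
  classical
  have hC := algP0 F.hD F.lefschetzA hH
  have t := F.sl2
  set L : Module.End W.K (W.H X) := LinearMap.mulLeft W.K (W.cl X D) with hL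
  have hw1 : wey L f * L = -(f * wey L f) := wey_e t
  have hw3 : ∀ (m : ℕ) (v : W.H X), f v = 0 → wt (W.isInternal X) X.dim v = -(m : W.K) • v →
      wey L f v = ((m.factorial : W.K)⁻¹) • (L ^ m) v := fun m v hv hm => wey_lowest t hv hm
  have hHw : ∀ i, ∀ a ∈ W.gr X i, wt (W.isInternal X) X.dim a = ((i : W.K) - X.dim) • a :=
    fun i a ha => Fr.wt_gr ha
  have hlow : ∀ i ≤ X.dim, ∀ a ∈ W.gr X i, (L ^ (X.dim - i + 1)) a = 0 → f a = 0 := by
    intro i hi a ha h0
    refine t.f_eq_zero (M := X.dim - i) ?_ h0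
    rw [hHw i a ha, Nat.cast_sub hi]
    congr 1
    ring
  have key : ∀ j, ∃ q : ℚ, 0 ≤ q ∧
      bf W X D f (proj (W.isInternal X) (2 * j) x) (proj (W.isInternal X) (2 * j) x) = q := by
    intro j
    have h1 := hx.proj j
    obtain ⟨s, hs, hs'⟩ := hC.weyl_nonneg t hw1 hw3 hlow hHw (mulLeft_isHom F.hD) W_hbd h1
    refine ⟨(-1) ^ j * s, hs', ?_⟩
    rw [bf_apply, st_apply (alg_gr h1), mul_smul_comm, map_smul, ← bil_apply]
    rw [hL] at hs
    rw [hs, sg_two_mul, smul_eq_mul]
    push_cast
    rfl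
  choose q hq0 hq2 using key
  refine ⟨∑ j ∈ Finset.range (X.dim + 1), q j, Finset.sum_nonneg fun j _ => hq0 j, ?_⟩
  have h1 : bf W X D f x x = bf W X D f
      (∑ j ∈ Finset.range (X.dim + 1), proj (W.isInternal X) (2 * j) x)
      (∑ j ∈ Finset.range (X.dim + 1), proj (W.isInternal X) (2 * j) x) := by
    rw [← Fr.AS_sum hx]
  rw [h1, map_sum (bf W X D f), LinearMap.sum_apply, Rat.cast_sum]
  apply Finset.sum_congr rfl
  intro j hj
  rw [map_sum, Finset.sum_eq_single j, hq2]
  · intro i _ hi
    exact F.bf_deg (proj_mem _ _ _) (proj_mem _ _ _) (by omega)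
  · intro h0; exact absurd hj h0

end One

/-- The families with bases of the cohomology of the members. -/
theorem exists_full (P : Λ → Polarized 𝒱) (hD : ∀ a, (P a).X.IsCyc 1 (P a).D)
    (hHL : ∀ a, HardLefschetz W (P a).X (P a).D) (hB : ∀ a, LefschetzB W (P a).X (P a).D) :
    ∃ M : Fam W Λ, M.P = P ∧ Nonempty M.Full := by
  classical
  choose f hf hls using fun a => exists_fr (hD a) (hHL a) (hB a)
  have hp : ∀ a i, AOp W (P a).X (P a).X (proj (W.isInternal (P a).X) i) :=
    fun a => proj_aop (hD a) (hHL a) (hB a)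
  let b : ∀ a, HB W (P a).X := fun a => (exists_HB W (P a).X).some
  have hst : ∀ a, ∃ c, AS W ((P a).X.prod (P a).X) c ∧
      W.corr c = st W (P a).X (P a).D (f a) := fun a => st_aop (hf a) (hp a)
  have hC : ∀ a, ∃ c, AS W ((P a).X.prod (P a).X) c ∧ W.corr c =
      st W (P a).X (P a).D (f a) * par (W.isInternal (P a).X) :=
    fun a => (st_aop (hf a) (hp a)).mul (par_aop (hp a))
  choose σ hσ hσ' using hst
  choose C hCa hCc using hC
  have hth : ∀ a, th W (P a).D (f a) (C a) = LinearMap.id := by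
    intro a
    have h1 : st W (P a).X (P a).D (f a) * st W (P a).X (P a).D (f a) = 1 := (hls a).star_star
    have h2 := par_mul_par (W.isInternal (P a).X)
    unfold th
    rw [hCc]
    change (st W (P a).X (P a).D (f a) * par (W.isInternal (P a).X)) *
      (par (W.isInternal (P a).X) * st W (P a).X (P a).D (f a)) = 1
    rw [mul_assoc, ← mul_assoc (par (W.isInternal (P a).X)), h2, one_mul, h1]
  have hcoord : ∀ a (z : W.H (P a).X), z = ∑ x : Fin (b a).N × Fin (b a).N,
      (((b a).ex (b a)).repr (C a) x * bf W (P a).X (P a).D (f a) ((b a).e x.1) z) •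
        (b a).e x.2 := by
    intro a z
    have h1 := th_coord (hf a) (b a) (b a) (hCa a) z
    rw [hth] at h1
    exact h1
  refine ⟨{
    P := P
    f := f
    fr := hf
    ls := hls
    N := fun a => (b a).N
    e := fun a => (b a).e
    dg := fun a => (b a).dg
    mem := fun a => (b a).mem
    c := fun a p q => ((b a).ex (b a)).repr (C a) (p, q)
    cpar := ?_
    inv := ?_
    alg := ?_
    kap := fun a => W.map (swap (P a).X (P a).X) (σ a)
    hkap := fun a => (hσ a).map _
    tkap := ?_ }, rfl, ⟨{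
      B := fun a => (b a).e
      hB := fun a p => rfl
      par := fun a => par_aop (hp a) }⟩⟩
  · intro a p q h
    by_contra h1
    apply h
    apply (b a).repr_odd (b a) (hCa a)
    intro h2
    apply h1
    rw [← Nat.not_even_iff_odd, ← Nat.not_even_iff_odd, not_iff_not]
    exact Nat.even_add.1 h2
  · intro a
    have h1 : (Matrix.of fun p q => ((b a).ex (b a)).repr (C a) (q, p) :
        Matrix (Fin (b a).N) (Fin (b a).N) W.K) * (Matrix.of fun p q =>
          bf W (P a).X (P a).D (f a) ((b a).e p) ((b a).e q)) = 1 := by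
      ext q r
      rw [Matrix.mul_apply, Matrix.one_apply]
      have h2 := congrArg (fun z => (b a).e.repr z q) (hcoord a ((b a).e r))
      beta_reduce at h2
      rw [Module.Basis.repr_self, map_sum, Finsupp.finsetSum_apply, Fintype.sum_prod_type] at h2
      simp only [map_smul, Module.Basis.repr_self, Finsupp.smul_apply, smul_eq_mul] at h2
      have h3 : (Finsupp.single r (1 : W.K)) q = if q = r then 1 else 0 := by
        rw [Finsupp.single_apply]
        by_cases h : r = q
        · rw [if_pos h, if_pos h.symm]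
        · rw [if_neg h, if_neg (Ne.symm h)]
      rw [← h3, h2]
      apply Finset.sum_congr rfl
      intro p _
      rw [Finset.sum_eq_single q]
      · rw [Finsupp.single_eq_same, mul_one]
        rfl
      · intro q' _ hq'
        rw [Finsupp.single_eq_of_ne (Ne.symm hq'), mul_zero]
      · intro h0
        exact absurd (Finset.mem_univ _) h0
    have h2 := mul_eq_one_comm.1 h1
    intro p q
    have h3 := congrFun (congrFun h2 p) q
    rw [Matrix.mul_apply, Matrix.one_apply] at h3
    exact h3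
  · intro a o
    have h1 : (∑ p, ∑ q, (if decide (Odd ((b a).dg p)) = o then
        ((b a).ex (b a)).repr (C a) (p, q) else 0) • (W.map (fst _ _) ((b a).e p) *
          W.map (snd _ _) ((b a).e q)) : W.H ((P a).X.prod (P a).X)) =
        extOp W (Fam.pp (P a).X o) 1 (C a) := by
      conv_rhs => rw [← ((b a).ex (b a)).sum_repr (C a)]
      rw [map_sum, Fintype.sum_prod_type]
      apply Finset.sum_congr rfl
      intro p _
      apply Finset.sum_congr rfl
      intro q _
      rw [map_smul, HB.ex_apply, H281R3.HT.ext, extOp_tmul, Fam.pp_apply _ ((b a).mem p)]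
      by_cases h : decide (Odd ((b a).dg p)) = o
      · rw [if_pos h, if_pos h]
        rfl
      · rw [if_neg h, if_neg h, map_zero, zero_mul, smul_zero, zero_smul]
    have h2 : AOp W (P a).X (P a).X (Fam.pp (P a).X o) :=
      AOp.smul _ (AOp.one.add (AOp.smul _ (par_aop (hp a))))
    exact h1 ▸ (h2.ext AOp.one).apply (hCa a)
  · intro a x y
    have h1 := (hσ a).map (swap (P a).X (P a).X)
    have h2 := h1.tr_corr x y
    rw [swap_swap, hσ'] at h2
    rw [bf_apply, ← h2, corr_apply, W.tr_push, ← mul_assoc]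

end Pool.Agent.H24FG
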